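import Pool.Agent.T6.H97.TB.Defs

/-! Module Bd: the number of the bad vectors of the third block. -/

set_option autoImplicit false

namespace Pool.Agent.T6.H97.TB

open Finset Matrix
open Pool.Agent.H548.WM (ht bx mem_bx card_bx_le)
open Pool.Agent.H548.BL (lat mem_lat lat_card)
open Pool.Agent.H548.TL (g1 g2 g3 tf Sm s12 s23 Tx InU tf_g1 tf_g2 tf_g3 g2_s12 Tx_mulVec Tx_map
  ker_three zeros)

namespace ModBd

/-- the determinant as a polynomial -/
noncomputable def dp {N : ℕ} (T : TN N) : MvPolynomial (Fin N) ℤ :=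
  (Tx T (fun i => (MvPolynomial.X i : MvPolynomial (Fin N) ℤ))).det

theorem dp_map {N : ℕ} (T : TN N) {R : Type*} [CommRing R] (φ : MvPolynomial (Fin N) ℤ →+* R) :
    φ (dp T) = (Tx T (fun i => φ (MvPolynomial.X i))).det := by
  unfold dp
  rw [RingHom.map_det, RingHom.mapMatrix_apply, Tx_map]

theorem dp_ne {N : ℕ} {T : TN N} (h : ∃ x : Fin N → ℂ, (Tx T x).det ≠ 0) : dp T ≠ 0 := by
  obtain ⟨x, hx⟩ := h
  intro h0
  apply hx
  have h1 := dp_map T (MvPolynomial.eval₂Hom (Int.castRingHom ℂ) x)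
  rw [h0, map_zero] at h1
  rw [h1]
  congr 2
  funext i
  simp

theorem dp_eval {N : ℕ} (T : TN N) (x : Fin N → ℤ) : MvPolynomial.eval x (dp T) = (Tx T x).det := by
  rw [dp_map T (MvPolynomial.eval x)]
  congr 2
  funext i
  simp

open Classical in
/-- the kernels, summed over the vectors of rank at least three -/
theorem ker_sum {N : ℕ} (hN : 4 ≤ N) {T : TN N} (hd : ∃ x : Fin N → ℂ, (Tx T x).det ≠ 0) :
    ∃ D : ℝ, 0 ≤ D ∧ ∀ A ρ : ℕ, 1 ≤ A → 1 ≤ ρ →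
      ∑ x ∈ (bx N A).filter (fun x => R3 T x), (((bx N ρ).filter fun z => g2 T x z = 0).card : ℝ) ≤
        D * ((A : ℝ) ^ N + (A : ℝ) ^ (N - 1) * (ρ : ℝ) ^ (N - 3)) := by
  have hf0 := dp_ne hd
  set f := dp T with hf
  refine ⟨3 ^ N + f.totalDegree * 3 ^ (N - 1) * (3 ^ N * 3 ^ (N - 3)), by positivity, ?_⟩
  intro A ρ hA hρ
  have hx : ∀ x ∈ (bx N A).filter (fun x => R3 T x),
      (((bx N ρ).filter fun z => g2 T x z = 0).card : ℝ) ≤
      (if MvPolynomial.eval x f = 0 then 3 ^ N * (3 * (ρ : ℝ)) ^ (N - 3) else 0) + 1 := by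
    intro x hx
    rw [mem_filter] at hx
    split_ifs with h
    · have h4 := ker_three (T := T) (x := x) hx.2 ρ hρ
      linarith
    · rw [zero_add]
      have h1 : ((bx N ρ).filter fun z => g2 T x z = 0) ⊆ {0} := by
        intro z hz
        rw [mem_filter] at hz
        rw [mem_singleton]
        rw [hf, dp_eval] at h
        refine Matrix.eq_zero_of_mulVec_eq_zero h ?_
        rw [Tx_mulVec]
        exact hz.2
      have h2 := card_le_card h1
      rw [card_singleton] at h2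
      exact_mod_cast h2
  set X := (bx N A).filter (fun x => R3 T x) with hX
  have hXf : ((X.filter fun x => MvPolynomial.eval x f = 0).card : ℝ) ≤
      f.totalDegree * (3 * A) ^ (N - 1) := by
    refine le_trans ?_ (zeros (by omega) hf0 A hA)
    exact_mod_cast card_le_card (filter_subset_filter _ (filter_subset _ _))
  have hXc : (X.card : ℝ) ≤ (3 * A) ^ N := by
    refine le_trans ?_ (card_bx_le N hA)
    exact_mod_cast card_le_card (filter_subset _ _)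
  calc ∑ x ∈ X, (((bx N ρ).filter fun z => g2 T x z = 0).card : ℝ) ≤
      ∑ x ∈ X, ((if MvPolynomial.eval x f = 0 then 3 ^ N * (3 * (ρ : ℝ)) ^ (N - 3) else 0) + 1) :=
        Finset.sum_le_sum hx
    _ = (X.filter fun x => MvPolynomial.eval x f = 0).card * (3 ^ N * (3 * (ρ : ℝ)) ^ (N - 3)) +
        X.card := by
        rw [Finset.sum_add_distrib, ← Finset.sum_filter, Finset.sum_const, Finset.sum_const,
          nsmul_eq_mul, nsmul_eq_mul, mul_one]
    _ ≤ f.totalDegree * (3 * A) ^ (N - 1) * (3 ^ N * (3 * (ρ : ℝ)) ^ (N - 3)) + (3 * A) ^ N := by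
        gcongr
    _ = 3 ^ N * (A : ℝ) ^ N + f.totalDegree * 3 ^ (N - 1) * (3 ^ N * 3 ^ (N - 3)) *
        ((A : ℝ) ^ (N - 1) * (ρ : ℝ) ^ (N - 3)) := by
        simp only [mul_pow]
        ring
    _ ≤ (3 ^ N + f.totalDegree * 3 ^ (N - 1) * (3 ^ N * 3 ^ (N - 3))) * (A : ℝ) ^ N +
        (3 ^ N + f.totalDegree * 3 ^ (N - 1) * (3 ^ N * 3 ^ (N - 3))) *
        ((A : ℝ) ^ (N - 1) * (ρ : ℝ) ^ (N - 3)) := by
        gcongr
        · have : (0 : ℝ) ≤ f.totalDegree * 3 ^ (N - 1) * (3 ^ N * 3 ^ (N - 3)) := by positivity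
          linarith
        · have : (0 : ℝ) ≤ 3 ^ N := by positivity
          linarith
    _ = _ := by ring

open Classical in
/-- fibres over the first component -/
theorem fib1 {α β γ : Type*} (X : Finset α) (Y : Finset β) (Z : Finset γ) (Q : α → Prop)
    (R : α → γ → Prop) :
    (((X ×ˢ Y ×ˢ Z).filter fun t => Q t.1 ∧ R t.1 t.2.2).card : ℝ) ≤
      ∑ x ∈ X.filter Q, (Y.card : ℝ) * ((Z.filter (R x)).card : ℝ) := by
  set S := (X ×ˢ Y ×ˢ Z).filter fun t => Q t.1 ∧ R t.1 t.2.2 with hS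
  have h1 : S.card = ∑ x ∈ X.filter Q, (S.filter fun t => t.1 = x).card := by
    refine Finset.card_eq_sum_card_fiberwise (f := fun t : α × β × γ => t.1) ?_
    intro t ht
    rw [mem_coe, hS, mem_filter, mem_product] at ht
    rw [mem_coe, mem_filter]
    exact ⟨ht.1.1, ht.2.1⟩
  rw [h1, Nat.cast_sum]
  refine Finset.sum_le_sum fun x _ => ?_
  rw [← Nat.cast_mul, ← card_product]
  refine Nat.cast_le.2 (Finset.card_le_card_of_injOn (fun t => t.2) ?_ ?_)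
  · rintro ⟨x', y, z⟩ ht
    rw [mem_coe, mem_filter, hS, mem_filter, mem_product, mem_product] at ht
    obtain ⟨⟨⟨_, hy, hz⟩, _, hR⟩, rfl⟩ := ht
    rw [mem_coe, mem_product, mem_filter]
    exact ⟨hy, hz, hR⟩
  · rintro ⟨x1, y1, z1⟩ h1 ⟨x2, y2, z2⟩ h2 e
    rw [mem_coe, mem_filter] at h1 h2
    have e1 : x1 = x := h1.2
    have e2 : x2 = x := h2.2
    have e3 : (y1, z1) = (y2, z2) := e
    rw [e1, e2]
    exact congrArg (Prod.mk x) e3

open Classical in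
/-- fibres over the first and the third component -/
theorem fib13 {α β γ : Type*} (X : Finset α) (Y : Finset β) (Z : Finset γ) (Q : γ → Prop)
    (R : α → β → γ → Prop) (M : ℕ) (hM : ∀ x ∈ X, ∀ z ∈ Z, Q z → (∃ y, R x y z) →
      (Y.filter (fun y => R x y z)).card ≤ M) :
    ((X ×ˢ Y ×ˢ Z).filter fun t => Q t.2.2 ∧ R t.1 t.2.1 t.2.2).card ≤
      M * (X.card * (Z.filter Q).card) := by
  set S := (X ×ˢ Y ×ˢ Z).filter fun t => Q t.2.2 ∧ R t.1 t.2.1 t.2.2 with hS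
  have h1 : S.card ≤ M * (S.image (fun t => (t.1, t.2.2))).card := by
    refine Finset.card_le_mul_card_image S M ?_
    intro b hb
    obtain ⟨⟨x, y, z⟩, ht, rfl⟩ := mem_image.1 hb
    rw [hS, mem_filter, mem_product, mem_product] at ht
    obtain ⟨⟨hx, hy, hz⟩, hQ, hR⟩ := ht
    refine le_trans ?_ (hM x hx z hz hQ ⟨y, hR⟩)
    refine Finset.card_le_card_of_injOn (fun t => t.2.1) ?_ ?_
    · rintro ⟨x', y', z'⟩ ht
      rw [mem_coe, mem_filter, hS, mem_filter, mem_product, mem_product] at ht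
      obtain ⟨⟨⟨_, hy', _⟩, _, hR'⟩, e⟩ := ht
      simp only [Prod.mk.injEq] at e
      rw [mem_coe, mem_filter]
      refine ⟨hy', ?_⟩
      have hR'' : R x' y' z' := hR'
      rw [e.1, e.2] at hR''
      exact hR''
    · rintro ⟨x1, y1, z1⟩ h1 ⟨x2, y2, z2⟩ h2 e
      rw [mem_coe, mem_filter] at h1 h2
      have e1 := h1.2
      have e2 := h2.2
      simp only [Prod.mk.injEq] at e1 e2
      have e3 : y1 = y2 := e
      rw [e1.1, e1.2, e2.1, e2.2, e3]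
  refine h1.trans (Nat.mul_le_mul_left _ ?_)
  rw [← card_product]
  refine card_le_card ?_
  intro b hb
  obtain ⟨⟨x, y, z⟩, ht, rfl⟩ := mem_image.1 hb
  rw [hS, mem_filter, mem_product, mem_product] at ht
  rw [mem_product, mem_filter]
  exact ⟨ht.1.1, ht.1.2.2, ht.2.1⟩

open Classical in
theorem orth_card {N : ℕ} (w : Fin N → ℤ) (hw : w ≠ 0) (B : ℕ) (hB : 1 ≤ B) :
    ((bx N B).filter fun y => y ⬝ᵥ w = 0).card ≤ 3 ^ N * (3 * B) ^ (N - 1) := by
  have hli : LinearIndependent ℤ (fun _ : Fin 1 => w) := by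
    rw [linearIndependent_unique_iff]
    exact hw
  have h4 := lat_card hli B hB
  rw [Fintype.card_fin] at h4
  have h5 : (bx N B).filter (fun y => y ⬝ᵥ w = 0) ⊆
      (bx N B).filter (· ∈ lat (fun _ : Fin 1 => w)) := by
    intro y hy
    rw [mem_filter] at hy ⊢
    refine ⟨hy.1, ?_⟩
    rw [mem_lat]
    intro i
    rw [dotProduct_comm]
    exact hy.2
  have h6 : (((bx N B).filter fun y => y ⬝ᵥ w = 0).card : ℝ) ≤ 3 ^ N * (3 * (B : ℝ)) ^ (N - 1) :=
    le_trans (by exact_mod_cast card_le_card h5) h4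
  exact_mod_cast h6

end ModBd

open ModBd in
open Classical in
/-- Module Bd. -/
theorem bd (hV2 : StmtV2) (hDt : StmtDtN) : StmtBd := by
  intro N hN T hs
  obtain ⟨D1, hD1, hk1⟩ := ker_sum hN (hDt N T hs)
  obtain ⟨D2, hD2, hk2⟩ := ker_sum hN (hDt N (s12 T) hs.s12)
  obtain ⟨C3, hC3, hv⟩ := hV2 N hN (s12 (s23 T)) hs.s23.s12
  refine ⟨3 ^ N * D1 * 6 + 3 ^ N * D2 * 6 + 3 ^ N * 3 ^ (N - 1) * 3 ^ N * C3 * 2, by positivity, ?_⟩
  intro A B X ρ hA hB hAX hBX hρ hρX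
  have hAr : (1 : ℝ) ≤ A := by exact_mod_cast hA
  have hBr : (1 : ℝ) ≤ B := by exact_mod_cast hB
  have hρr : (1 : ℝ) ≤ ρ := by exact_mod_cast hρ
  have hAXr : (A : ℝ) ≤ 2 * X := by exact_mod_cast hAX
  have hBXr : (B : ℝ) ≤ 2 * X := by exact_mod_cast hBX
  have hρXr : (ρ : ℝ) ≤ X := by exact_mod_cast hρX
  have hXr : (1 : ℝ) ≤ X := hρr.trans hρXr
  have hAN : (A : ℝ) ^ N = A ^ (N - 1) * A := by rw [← pow_succ]; congr 1; omega
  have hBN : (B : ℝ) ^ N = B ^ (N - 1) * B := by rw [← pow_succ]; congr 1; omega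
  have hρN : (ρ : ℝ) ^ (N - 3) = ρ ^ (N - 4) * ρ := by rw [← pow_succ]; congr 1; omega
  have hρ1 : (1 : ℝ) ≤ ρ ^ (N - 4) := one_le_pow₀ hρr
  -- the cover
  set Sa := (bx N A ×ˢ bx N B ×ˢ bx N ρ).filter fun t => R3 T t.1 ∧ g2 T t.1 t.2.2 = 0 with hSa
  set Sb := (bx N B ×ˢ bx N A ×ˢ bx N ρ).filter fun t =>
    R3 (s12 T) t.1 ∧ g2 (s12 T) t.1 t.2.2 = 0 with hSb
  set Sc := (bx N A ×ˢ bx N B ×ˢ bx N ρ).filter fun t =>
    (t.2.2 ≠ 0 ∧ ¬ R3 (s12 (s23 T)) t.2.2) ∧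
    (g2 T t.1 t.2.2 ≠ 0 ∧ t.2.1 ⬝ᵥ g2 T t.1 t.2.2 = 0) with hSc
  have hcover : (((bx N A ×ˢ bx N B ×ˢ bx N ρ).filter fun t => g3 T t.1 t.2.1 ≠ 0 ∧ R3 T t.1 ∧
      R3 (s12 T) t.2.1 ∧ tf T t.1 t.2.1 t.2.2 = 0 ∧ ¬ PN T t.1 t.2.1 t.2.2).card : ℝ) ≤
      Sa.card + Sb.card + Sc.card := by
    have h1 : ((bx N A ×ˢ bx N B ×ˢ bx N ρ).filter fun t => g3 T t.1 t.2.1 ≠ 0 ∧ R3 T t.1 ∧
        R3 (s12 T) t.2.1 ∧ tf T t.1 t.2.1 t.2.2 = 0 ∧ ¬ PN T t.1 t.2.1 t.2.2) ⊆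
        Sa ∪ (Sb.image fun t => (t.2.1, t.1, t.2.2)) ∪ Sc := by
      rintro ⟨x, y, z⟩ ht
      rw [mem_filter, mem_product, mem_product] at ht
      obtain ⟨⟨hx, hy, hz⟩, h3, hRx, hRy, htf, hPN⟩ := ht
      rw [mem_union, mem_union]
      by_cases hg2 : g2 T x z = 0
      · left; left
        rw [hSa, mem_filter, mem_product, mem_product]
        exact ⟨⟨hx, hy, hz⟩, hRx, hg2⟩
      · by_cases hg1 : g1 T y z = 0
        · left; right
          rw [mem_image]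
          refine ⟨(y, x, z), ?_, rfl⟩
          rw [hSb, mem_filter, mem_product, mem_product]
          refine ⟨⟨hy, hx, hz⟩, hRy, ?_⟩
          simp only
          rw [g2_s12]
          exact hg1
        · right
          rw [hSc, mem_filter, mem_product, mem_product]
          refine ⟨⟨hx, hy, hz⟩, ⟨?_, ?_⟩, hg2, ?_⟩
          · intro h0
            apply hg2
            simp only at h0
            rw [h0, ← Tx_mulVec, mulVec_zero]
          · intro hR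
            exact hPN ⟨⟨htf, hg1, hg2, h3⟩, hRx, hRy, hR⟩
          · rw [← tf_g2]
            exact htf
    have h2 := card_le_card h1
    have h3 : (Sa ∪ (Sb.image fun t => (t.2.1, t.1, t.2.2)) ∪ Sc).card ≤
        Sa.card + Sb.card + Sc.card := by
      refine (card_union_le _ _).trans (Nat.add_le_add_right ?_ _)
      refine (card_union_le _ _).trans (Nat.add_le_add_left card_image_le _)
    exact_mod_cast h2.trans h3
  -- (a)
  have ha : (Sa.card : ℝ) ≤ 3 ^ N * D1 * 6 * ((A : ℝ) * B) ^ (N - 1) * (X : ℝ) ^ 2 *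
      (ρ : ℝ) ^ (N - 4) := by
    have h1 : (Sa.card : ℝ) ≤ ∑ x ∈ (bx N A).filter (fun x => R3 T x),
        ((bx N B).card : ℝ) * (((bx N ρ).filter fun z => g2 T x z = 0).card : ℝ) := by
      convert fib1 (bx N A) (bx N B) (bx N ρ) (fun x => R3 T x) (fun x z => g2 T x z = 0)
    rw [← Finset.mul_sum] at h1
    calc (Sa.card : ℝ) ≤ _ := h1
      _ ≤ (3 * (B : ℝ)) ^ N * (D1 * ((A : ℝ) ^ N + (A : ℝ) ^ (N - 1) * (ρ : ℝ) ^ (N - 3))) := by
          refine mul_le_mul (card_bx_le N hB) (hk1 A ρ hA hρ) ?_ (by positivity)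
          exact Finset.sum_nonneg fun _ _ => by positivity
      _ = 3 ^ N * D1 * ((A : ℝ) * B) ^ (N - 1) * (A * B + B * ρ * ρ ^ (N - 4)) := by
          rw [mul_pow, hAN, hBN, hρN, mul_pow]; ring
      _ ≤ 3 ^ N * D1 * ((A : ℝ) * B) ^ (N - 1) * (6 * (X : ℝ) ^ 2 * ρ ^ (N - 4)) := by
          gcongr
          have e1 : (A : ℝ) * B ≤ 4 * X ^ 2 * ρ ^ (N - 4) := by
            calc (A : ℝ) * B ≤ (2 * X) * (2 * X) := by gcongr
              _ = 4 * X ^ 2 * 1 := by ring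
              _ ≤ _ := by gcongr
          have e2 : (B : ℝ) * ρ * ρ ^ (N - 4) ≤ 2 * X ^ 2 * ρ ^ (N - 4) := by
            calc (B : ℝ) * ρ * ρ ^ (N - 4) ≤ (2 * X) * X * ρ ^ (N - 4) := by gcongr
              _ = _ := by ring
          linarith
      _ = _ := by ring
  have hb : (Sb.card : ℝ) ≤ 3 ^ N * D2 * 6 * ((A : ℝ) * B) ^ (N - 1) * (X : ℝ) ^ 2 *
      (ρ : ℝ) ^ (N - 4) := by
    have h1 : (Sb.card : ℝ) ≤ ∑ x ∈ (bx N B).filter (fun x => R3 (s12 T) x),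
        ((bx N A).card : ℝ) * (((bx N ρ).filter fun z => g2 (s12 T) x z = 0).card : ℝ) := by
      convert fib1 (bx N B) (bx N A) (bx N ρ) (fun x => R3 (s12 T) x)
        (fun x z => g2 (s12 T) x z = 0)
    rw [← Finset.mul_sum] at h1
    calc (Sb.card : ℝ) ≤ _ := h1
      _ ≤ (3 * (A : ℝ)) ^ N * (D2 * ((B : ℝ) ^ N + (B : ℝ) ^ (N - 1) * (ρ : ℝ) ^ (N - 3))) := by
          refine mul_le_mul (card_bx_le N hA) (hk2 B ρ hB hρ) ?_ (by positivity)
          exact Finset.sum_nonneg fun _ _ => by positivity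
      _ = 3 ^ N * D2 * ((A : ℝ) * B) ^ (N - 1) * (A * B + A * ρ * ρ ^ (N - 4)) := by
          rw [mul_pow, hAN, hBN, hρN, mul_pow]; ring
      _ ≤ 3 ^ N * D2 * ((A : ℝ) * B) ^ (N - 1) * (6 * (X : ℝ) ^ 2 * ρ ^ (N - 4)) := by
          gcongr
          have e1 : (A : ℝ) * B ≤ 4 * X ^ 2 * ρ ^ (N - 4) := by
            calc (A : ℝ) * B ≤ (2 * X) * (2 * X) := by gcongr
              _ = 4 * X ^ 2 * 1 := by ring
              _ ≤ _ := by gcongr
          have e2 : (A : ℝ) * ρ * ρ ^ (N - 4) ≤ 2 * X ^ 2 * ρ ^ (N - 4) := by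
            calc (A : ℝ) * ρ * ρ ^ (N - 4) ≤ (2 * X) * X * ρ ^ (N - 4) := by gcongr
              _ = _ := by ring
          linarith
      _ = _ := by ring
  have hc : (Sc.card : ℝ) ≤ 3 ^ N * 3 ^ (N - 1) * 3 ^ N * C3 * 2 * ((A : ℝ) * B) ^ (N - 1) *
      (X : ℝ) ^ 2 * (ρ : ℝ) ^ (N - 4) := by
    have h1 : Sc.card ≤ (3 ^ N * (3 * B) ^ (N - 1)) * ((bx N A).card *
        ((bx N ρ).filter fun z => z ≠ 0 ∧ ¬ R3 (s12 (s23 T)) z).card) := by
      convert fib13 (bx N A) (bx N B) (bx N ρ)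
        (fun z => z ≠ 0 ∧ ¬ R3 (s12 (s23 T)) z)
        (fun x y z => g2 T x z ≠ 0 ∧ y ⬝ᵥ g2 T x z = 0) (3 ^ N * (3 * B) ^ (N - 1)) (by
          intro x _ z _ _ hex
          obtain ⟨y, hy, _⟩ := hex
          refine le_trans (card_le_card ?_) (orth_card (g2 T x z) hy B hB)
          intro y' hy'
          simp only [mem_filter] at hy' ⊢
          exact ⟨hy'.1, hy'.2.2⟩)
    have h2 : (Sc.card : ℝ) ≤ (3 ^ N * (3 * (B : ℝ)) ^ (N - 1)) *
        (((bx N A).card : ℝ) *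
          (((bx N ρ).filter fun z => z ≠ 0 ∧ ¬ R3 (s12 (s23 T)) z).card : ℝ)) := by
      exact_mod_cast h1
    calc (Sc.card : ℝ) ≤ _ := h2
      _ ≤ (3 ^ N * (3 * (B : ℝ)) ^ (N - 1)) * ((3 * (A : ℝ)) ^ N * (C3 * (ρ : ℝ) ^ (N - 3))) := by
          gcongr
          · exact card_bx_le N hA
          · exact hv ρ hρ
      _ = 3 ^ N * 3 ^ (N - 1) * 3 ^ N * C3 * ((A : ℝ) * B) ^ (N - 1) *
          (A * ρ * ρ ^ (N - 4)) := by
          rw [mul_pow, mul_pow, hAN, hρN, mul_pow]; ring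
      _ ≤ 3 ^ N * 3 ^ (N - 1) * 3 ^ N * C3 * ((A : ℝ) * B) ^ (N - 1) *
          ((2 * X) * X * ρ ^ (N - 4)) := by gcongr
      _ = _ := by ring
  refine hcover.trans ?_
  calc (Sa.card : ℝ) + Sb.card + Sc.card ≤ _ := add_le_add (add_le_add ha hb) hc
    _ = _ := by ring

end Pool.Agent.T6.H97.TB
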