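import Pool.Agent.T6.H97.TB.Defs
import Pool.Agent.H548.TL.Fo

set_option autoImplicit false

namespace Pool.Agent.T6.H97.TB

open Finset Matrix Filter Topology MeasureTheory
open Pool.Agent.H548.WM (ht bx)
open Pool.Agent.H548.TL (g1 g2 g3 tf Sm s12 s23 Tx InU)

open Pool.Agent.H548.TL in
theorem dtN : StmtDtN := by
  intro N T hs
  by_cases hN : N = 0
  · subst hN
    exact ⟨0, by simp⟩
  have hS : ({x : Fin N → ℂ | x ≠ 0}).Nonempty := by
    refine ⟨fun _ => 1, ?_⟩
    intro h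
    have := congrFun h ⟨0, by omega⟩
    simp at this
  obtain ⟨x, hx, hmax⟩ := Pool.Agent.H548.BL.exists_max {x : Fin N → ℂ | x ≠ 0} hS
    (fun x => (Tx T x).rank) N (fun x => by simpa using (Tx T x).rank_le_height)
  have hmax' : ∀ x' : Fin N → ℂ, (Tx T x').rank ≤ (Tx T x).rank := by
    intro x'
    by_cases h : x' = 0
    · rw [h, Tx_zero, rank_zero]
      omega
    · exact hmax x' h
  refine ⟨x, ?_⟩
  intro hdet
  obtain ⟨η, hη0, hη⟩ := Matrix.exists_mulVec_eq_zero_iff.2 hdet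
  have hdet' : (Tx T x)ᵀ.det = 0 := by rw [det_transpose]; exact hdet
  obtain ⟨ξ, hξ0, hξ⟩ := Matrix.exists_mulVec_eq_zero_iff.2 hdet'
  rw [mulVec_transpose] at hξ
  refine hs x ξ η hx hξ0 hη0 ⟨?_, ?_, ?_⟩
  · have hrel : ∀ v : Fin N → ℂ, g1 T ξ η ⬝ᵥ v = 0 := by
      intro v
      have h4 := first_order (Tx T x) (Tx T v) (Filter.Eventually.of_forall fun t => by
        rw [← Tx_add]
        exact hmax' _) hξ hη
      rw [Tx_mulVec, ← tf_g2, tf_g1] at h4
      rw [dotProduct_comm]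
      exact h4
    exact dotProduct_eq_zero _ hrel
  · rw [← Tx_mulVec]
    exact hη
  · rw [← vecMul_Tx]
    exact hξ

end Pool.Agent.T6.H97.TB
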