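import Mathlib
import Pool.Agent.H548.TL.Order
import Pool.Agent.T6.H81.BG.Defs

/-!
Smooth divisors of type `(1,1,1)` in the threefold product of the projective space of dimension
`N - 1`, `N ≥ 4`: definitions, and the statements of the modules.
-/

set_option autoImplicit false

namespace Pool.Agent.T6.H97.TB

open Finset Matrix Filter Topology MeasureTheory
open Pool.Agent.H548.WM (ht bx)
open Pool.Agent.H548.TL (g1 g2 g3 tf Sm s12 s23 Tx InU)

/-- The coefficients of a trilinear form. -/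
abbrev TN (N : ℕ) : Type := Fin N → Fin N → Fin N → ℤ

/-- The matrix of the bilinear form for the given first argument has rank at least three: three of
its rows are linearly independent. -/
def R3 {N : ℕ} (T : TN N) (x : Fin N → ℤ) : Prop :=
  ∃ g : Fin 3 → Fin N, LinearIndependent ℤ (fun s => Tx T x (g s))

/-- The points of the open set: a point of the divisor at which none of the three vectors of the
partial derivatives is zero, and the matrices of the three bilinear forms have rank at least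
three. -/
def PN {N : ℕ} (T : TN N) (x y z : Fin N → ℤ) : Prop :=
  InU T x y z ∧ R3 T x ∧ R3 (s12 T) y ∧ R3 (s12 (s23 T)) z

/-- Module RkN: all ranks are at least two. -/
def StmtRkN : Prop := ∀ N : ℕ, 3 ≤ N → ∀ T : TN N, Sm ℂ T → ∀ x : Fin N → ℂ, x ≠ 0 →
  ∃ g : Fin 2 → Fin N, LinearIndependent ℂ (fun s => Tx T x (g s))

/-- Module DtN: the determinant is not identically zero. -/
def StmtDtN : Prop := ∀ (N : ℕ) (T : TN N), Sm ℂ T → ∃ x : Fin N → ℂ, (Tx T x).det ≠ 0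

open Classical in
/-- Module V2: there are few vectors of rank two. -/
def StmtV2 : Prop := ∀ N : ℕ, 4 ≤ N → ∀ T : TN N, Sm ℂ T → ∃ C : ℝ, 0 ≤ C ∧ ∀ ρ : ℕ, 1 ≤ ρ →
  ((((bx N ρ).filter fun x => x ≠ 0 ∧ ¬ R3 T x).card : ℕ) : ℝ) ≤ C * (ρ : ℝ) ^ (N - 3)

open Classical in
/-- Module Bd: the number of the bad vectors of the third block. -/
def StmtBd : Prop := ∀ N : ℕ, 4 ≤ N → ∀ T : TN N, Sm ℂ T → ∃ C : ℝ, 0 ≤ C ∧
  ∀ A B X ρ : ℕ, 1 ≤ A → 1 ≤ B → A ≤ 2 * X → B ≤ 2 * X → 1 ≤ ρ → ρ ≤ X →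
  ((((bx N A ×ˢ bx N B ×ˢ bx N ρ).filter fun t => g3 T t.1 t.2.1 ≠ 0 ∧ R3 T t.1 ∧
      R3 (s12 T) t.2.1 ∧ tf T t.1 t.2.1 t.2.2 = 0 ∧ ¬ PN T t.1 t.2.1 t.2.2).card : ℕ) : ℝ) ≤
    C * ((A : ℝ) * B) ^ (N - 1) * (X : ℝ) ^ 2 * (ρ : ℝ) ^ (N - 4)

/-- Module Pt: a complex point of the divisor with nonzero determinants. -/
def StmtPt : Prop := ∀ N : ℕ, 2 ≤ N → ∀ T : TN N, Sm ℂ T → ∃ x y z : Fin N → ℂ,
  tf T x y z = 0 ∧ (Tx T x).det ≠ 0 ∧ (Tx (s12 T) y).det ≠ 0 ∧ (Tx (s12 (s23 T)) z).det ≠ 0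

end Pool.Agent.T6.H97.TB
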