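import Mathlib
import Pool.Agent.T6.H97.TB.Defs

/-!
Rank conditions and symmetries.
-/

set_option autoImplicit false

namespace Pool.Agent.T6.H97.TB

open Finset Matrix Filter Topology MeasureTheory
open Pool.Agent.H548.WM (ht bx mem_bx)
open Pool.Agent.H548.TL (g1 g2 g3 tf Sm s12 s23 Tx InU inU_s12 inU_s23)

/-- Three linearly independent rows: rank at least three. -/
theorem rows_iff {N : ℕ} (M : Matrix (Fin N) (Fin N) ℤ) :
    (∃ g : Fin 3 → Fin N, LinearIndependent ℤ (fun s => M (g s))) ↔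
      3 ≤ (M.map (Int.cast : ℤ → ℚ)).rank := by
  constructor
  · rintro ⟨g, hg⟩
    have h1 := (linearIndependent_algebraMap_comp_iff (R := ℤ) (S := ℚ)
      (v := fun s => M (g s))).2 hg
    have h2 : LinearIndependent ℚ (fun s => (M.map (Int.cast : ℤ → ℚ)).row (g s)) := h1
    rw [Matrix.rank_eq_finrank_span_row]
    have h3 := finrank_span_eq_card h2
    rw [Fintype.card_fin] at h3
    rw [← h3]
    apply Submodule.finrank_mono
    apply Submodule.span_mono
    rintro _ ⟨s, rfl⟩
    exact ⟨g s, rfl⟩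
  · intro h
    rw [Matrix.rank_eq_finrank_span_row] at h
    obtain ⟨f, hf1, -, hf3⟩ := Submodule.exists_fun_fin_finrank_span_eq ℚ
      (Set.range (M.map (Int.cast : ℤ → ℚ)).row)
    have hf4 : LinearIndependent ℚ (fun s : Fin 3 => f (Fin.castLE h s)) :=
      hf3.comp _ (Fin.castLE_injective h)
    choose g hg using fun s : Fin 3 => hf1 (Fin.castLE h s)
    refine ⟨g, ?_⟩
    rw [← linearIndependent_algebraMap_comp_iff (R := ℤ) (S := ℚ)]
    have e : (fun i : Fin 3 => (algebraMap ℤ ℚ) ∘ M (g i)) = fun s : Fin 3 => f (Fin.castLE h s) := by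
      funext s
      rw [← hg s]
      rfl
    rw [e]
    exact hf4

theorem R3_s23 {N : ℕ} (T : TN N) (x : Fin N → ℤ) : R3 (s23 T) x ↔ R3 T x := by
  unfold R3
  have e : Tx (s23 T) x = (Tx T x)ᵀ := by
    ext i j
    unfold Tx s23
    rfl
  have h1 := rows_iff (Tx (s23 T) x)
  have h2 := rows_iff (Tx T x)
  rw [h1, h2, e]
  have e2 : ((Tx T x)ᵀ.map (Int.cast : ℤ → ℚ)) = ((Tx T x).map (Int.cast : ℤ → ℚ))ᵀ := rfl
  rw [e2, Matrix.rank_transpose]

theorem PN_s12 {N : ℕ} (T : TN N) (x y z : Fin N → ℤ) : PN (s12 T) y x z ↔ PN T x y z := by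
  unfold PN
  rw [inU_s12]
  have e : R3 (s12 (s23 (s12 T))) z ↔ R3 (s12 (s23 T)) z := R3_s23 (s12 (s23 T)) z
  rw [e]
  have e2 : R3 (s12 (s12 T)) x ↔ R3 T x := Iff.rfl
  rw [e2]
  tauto

theorem PN_s23 {N : ℕ} (T : TN N) (x y z : Fin N → ℤ) : PN (s23 T) x z y ↔ PN T x y z := by
  unfold PN
  rw [inU_s23, R3_s23]
  have e2 : R3 (s12 (s23 (s23 T))) y ↔ R3 (s12 T) y := Iff.rfl
  rw [e2]
  tauto

/-- A matrix with nonzero determinant has three independent rows. -/
theorem rows_of_det {R : Type} [CommRing R] [IsDomain R] {N : ℕ} (hN : 3 ≤ N)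
    {M : Matrix (Fin N) (Fin N) R} (h : M.det ≠ 0) :
    ∃ g : Fin 3 → Fin N, LinearIndependent R (fun s => M (g s)) := by
  have h1 : LinearIndependent R (fun i => M i) := by
    rw [Fintype.linearIndependent_iff]
    intro c hc
    by_contra hcon
    push Not at hcon
    apply h
    rw [← Matrix.exists_vecMul_eq_zero_iff]
    refine ⟨c, ?_, ?_⟩
    · intro h0
      obtain ⟨i, hi⟩ := hcon
      exact hi (congrFun h0 i)
    · funext j
      have := congrFun hc j
      rw [Finset.sum_apply] at this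
      simpa [Matrix.vecMul, dotProduct] using this
  exact ⟨Fin.castLE hN, h1.comp _ (Fin.castLE_injective hN)⟩

/-- For `3 × 3` matrices: three independent rows mean nonzero determinant. -/
theorem det_of_rows {M : Matrix (Fin 3) (Fin 3) ℤ}
    (h : ∃ g : Fin 3 → Fin 3, LinearIndependent ℤ (fun s => M (g s))) : M.det ≠ 0 := by
  obtain ⟨g, hg⟩ := h
  have hinj : Function.Injective g := by
    intro a b hab
    exact hg.injective (by simp only [hab])
  have hb : Function.Bijective g := Finite.injective_iff_bijective.1 hinj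
  intro h0
  obtain ⟨c, hc0, hc⟩ := Matrix.exists_vecMul_eq_zero_iff.2 h0
  apply hc0
  rw [Fintype.linearIndependent_iff] at hg
  have h1 := hg (fun s => c (g s)) (by
    funext j
    have h2 := congrFun hc j
    rw [Finset.sum_apply]
    have h3 : ∑ s, (c (g s) • M (g s)) j = ∑ i, (c i • M i) j :=
      (Equiv.ofBijective g hb).sum_comp fun i => (c i • M i) j
    rw [h3]
    simpa [Matrix.vecMul, dotProduct] using h2)
  funext i
  obtain ⟨s, rfl⟩ := hb.2 i
  exact h1 s

end Pool.Agent.T6.H97.TB
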