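import Mathlib
import Pool.Agent.T6.H97.TB.Rk
import Pool.Agent.T6.H81.BG.A3

/-!
The fibred system, and the asymptotic formula for `N ≥ 4`.
-/

set_option autoImplicit false

namespace Pool.Agent.T6.H97.TB

open Finset Module Matrix Filter Topology
open Pool.Agent.H548.WM (ht bx mem_bx Rep ht_pos)
open Pool.Agent.H548.BL (lat mem_lat rep_ne)
open Pool.Agent.H548.TL (g1 g2 g3 tf Sm s12 s23 Tx InU PP tf_g1 tf_g2 tf_g3 tf_s12 tf_s23)
open Pool.Agent.T6.H81.BG (Pt Bx mem_Bx FS StmtC3 StmtP3 StmtH3 StmtW3 StmtZ3 LFs Cone Phs ic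
  am_lim am_pos)

/-- Three blocks of `N` coordinates. -/
abbrev nn (N : ℕ) : Fin 3 → ℕ := fun _ => N

/-- The open set. -/
def PX {N : ℕ} (T : TN N) (x : Pt (nn N)) : Prop := PN T (x 0) (x 1) (x 2)

/-- The vector of the partial derivatives in one block. -/
def gv {N : ℕ} (T : TN N) (v : Fin 3) (x : Pt (nn N)) : Fin N → ℤ :=
  match v with
  | 0 => g1 T (x 1) (x 2)
  | 1 => g2 T (x 0) (x 2)
  | 2 => g3 T (x 0) (x 1)

/-- The conditions on the other two blocks. -/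
def QX {N : ℕ} (T : TN N) (v : Fin 3) (x : Pt (nn N)) : Prop :=
  match v with
  | 0 => R3 (s12 T) (x 1) ∧ R3 (s12 (s23 T)) (x 2) ∧ g1 T (x 1) (x 2) ≠ 0
  | 1 => R3 T (x 0) ∧ R3 (s12 (s23 T)) (x 2) ∧ g2 T (x 0) (x 2) ≠ 0
  | 2 => R3 T (x 0) ∧ R3 (s12 T) (x 1) ∧ g3 T (x 0) (x 1) ≠ 0

theorem gv_upd {N : ℕ} (T : TN N) (v : Fin 3) (x : Pt (nn N)) (z : Fin N → ℤ) :
    gv T v (Function.update x v z) = gv T v x := by
  fin_cases v
  · show g1 T (Function.update x 0 z 1) (Function.update x 0 z 2) = g1 T (x 1) (x 2)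
    rw [Function.update_of_ne (by decide), Function.update_of_ne (by decide)]
  · show g2 T (Function.update x 1 z 0) (Function.update x 1 z 2) = g2 T (x 0) (x 2)
    rw [Function.update_of_ne (by decide), Function.update_of_ne (by decide)]
  · show g3 T (Function.update x 2 z 0) (Function.update x 2 z 1) = g3 T (x 0) (x 1)
    rw [Function.update_of_ne (by decide), Function.update_of_ne (by decide)]

theorem QX_upd {N : ℕ} (T : TN N) (v : Fin 3) (x : Pt (nn N)) (z : Fin N → ℤ) :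
    QX T v (Function.update x v z) ↔ QX T v x := by
  fin_cases v
  · show (R3 (s12 T) (Function.update x 0 z 1) ∧ R3 (s12 (s23 T)) (Function.update x 0 z 2) ∧
      g1 T (Function.update x 0 z 1) (Function.update x 0 z 2) ≠ 0) ↔
      (R3 (s12 T) (x 1) ∧ R3 (s12 (s23 T)) (x 2) ∧ g1 T (x 1) (x 2) ≠ 0)
    rw [Function.update_of_ne (by decide), Function.update_of_ne (by decide)]
  · show (R3 T (Function.update x 1 z 0) ∧ R3 (s12 (s23 T)) (Function.update x 1 z 2) ∧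
      g2 T (Function.update x 1 z 0) (Function.update x 1 z 2) ≠ 0) ↔
      (R3 T (x 0) ∧ R3 (s12 (s23 T)) (x 2) ∧ g2 T (x 0) (x 2) ≠ 0)
    rw [Function.update_of_ne (by decide), Function.update_of_ne (by decide)]
  · show (R3 T (Function.update x 2 z 0) ∧ R3 (s12 T) (Function.update x 2 z 1) ∧
      g3 T (Function.update x 2 z 0) (Function.update x 2 z 1) ≠ 0) ↔
      (R3 T (x 0) ∧ R3 (s12 T) (x 1) ∧ g3 T (x 0) (x 1) ≠ 0)
    rw [Function.update_of_ne (by decide), Function.update_of_ne (by decide)]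

theorem QX_gv {N : ℕ} {T : TN N} {v : Fin 3} {x : Pt (nn N)} (h : QX T v x) : gv T v x ≠ 0 := by
  fin_cases v
  · exact h.2.2
  · exact h.2.2
  · exact h.2.2

theorem PX_QX {N : ℕ} {T : TN N} {x : Pt (nn N)} (h : PX T x) (v : Fin 3) :
    QX T v x ∧ gv T v x ⬝ᵥ x v = 0 := by
  obtain ⟨⟨h0, h1, h2, h3⟩, r1, r2, r3⟩ := h
  fin_cases v
  · exact ⟨⟨r2, r3, h1⟩, by
      show g1 T (x 1) (x 2) ⬝ᵥ x 0 = 0
      rw [dotProduct_comm, ← tf_g1]
      exact h0⟩
  · exact ⟨⟨r1, r3, h2⟩, by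
      show g2 T (x 0) (x 2) ⬝ᵥ x 1 = 0
      rw [dotProduct_comm, ← tf_g2]
      exact h0⟩
  · exact ⟨⟨r1, r2, h3⟩, by
      show g3 T (x 0) (x 1) ⬝ᵥ x 2 = 0
      rw [dotProduct_comm, ← tf_g3]
      exact h0⟩

theorem box_PX {N : ℕ} (hN : 3 ≤ N) {T : TN N} (hs : Sm ℝ T) (ε : ℝ) (hε : 0 < ε) :
    ∃ C : ℝ, 0 ≤ C ∧ ∀ X : Fin 3 → ℕ, (∀ v, 1 ≤ X v) →
      ((Bx (nn N) X (PX T)).card : ℝ) ≤ C * (∏ v, (X v : ℝ) ^ (N - 1)) * (∏ v, (X v : ℝ)) ^ ε := by
  classical
  obtain ⟨K, hK, h⟩ := Pool.Agent.H548.TL.box hN hN hN hs ε hε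
  refine ⟨K, hK, fun X hX => ?_⟩
  have h1 := h (X 0) (X 1) (X 2) (hX 0) (hX 1) (hX 2)
  rw [Fin.prod_univ_three, Fin.prod_univ_three]
  refine le_trans ?_ h1
  have h2 : (Bx (nn N) X (PX T)).card ≤ (PP T (X 0) (X 1) (X 2)).card := by
    apply Finset.card_le_card_of_injOn (fun x => (x 0, x 1, x 2))
    · intro x hx
      rw [Finset.mem_coe, mem_Bx] at hx
      rw [Finset.mem_coe]
      unfold Pool.Agent.H548.TL.PP
      rw [mem_filter, mem_product, mem_product, mem_bx, mem_bx, mem_bx]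
      exact ⟨⟨hx.1 0, hx.1 1, hx.1 2⟩, hx.2.1⟩
    · intro x _ x' _ hxx
      simp only [Prod.mk.injEq] at hxx
      funext v
      fin_cases v
      · exact hxx.1
      · exact hxx.2.1
      · exact hxx.2.2
  exact_mod_cast h2

theorem real_aux {N : ℕ} (A B X ρ C : ℝ) (hX : 1 ≤ X) (hA : 0 ≤ A) (hB : 0 ≤ B) (hC : 0 ≤ C)
    (hρ : 0 ≤ ρ) {ε : ℝ} (hε : 0 < ε) :
    C * (A * B) ^ (N - 1) * X ^ 2 * ρ ^ (N - 4) ≤
      C * (A ^ (N - 1) * B ^ (N - 1)) * X ^ (((2 : ℕ) : ℝ) + ε) * ρ ^ (N - 1 - 2 - 1) := by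
  have h1 : X ^ 2 ≤ X ^ (((2 : ℕ) : ℝ) + ε) := by
    rw [← Real.rpow_natCast X 2]
    exact Real.rpow_le_rpow_of_exponent_le hX (by linarith)
  have h2 : N - 1 - 2 - 1 = N - 4 := by omega
  rw [h2, mul_pow]
  gcongr

/-- The fibred system. -/
theorem fs {N : ℕ} (hN : 4 ≤ N) (hBd : StmtBd) {T : TN N} (hs : Sm ℂ T) :
    FS (nn N) (fun _ : Fin 3 => N - 1) (fun _ : Fin 3 => 2) (PX T) (QX T) (fun _ => Fin 1)
      (fun v x _ => gv T v x) := by
  classical
  refine ⟨?_, ?_, ?_, ?_, ?_, ?_, ?_, ?_, ?_⟩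
  · intro v
    rw [Fintype.card_fin]
    show 1 + (N - 1) = N
    omega
  · intro v
    show 2 ≤ N - 1
    omega
  · intro v
    show 2 + 1 ≤ N - 1
    omega
  · intro v x z
    exact QX_upd T v x z
  · intro v x z
    funext i
    exact gv_upd T v x z
  · intro v x h
    rw [linearIndependent_unique_iff]
    exact QX_gv h
  · intro v x h
    refine ⟨(PX_QX h v).1, ?_⟩
    rw [mem_lat]
    intro i
    exact (PX_QX h v).2
  · exact fun ε hε => box_PX (by omega) (Sm.real hs) ε hε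
  · intro v ε hε
    fin_cases v
    · -- the first block
      obtain ⟨C, hC, h⟩ := hBd N hN (s23 (s12 T)) hs.s12.s23
      refine ⟨C, hC, fun X hX hXX ρ hρ hρX => ?_⟩
      have h1 := h (X 1) (X 2) (X 0) ρ (hX 1) (hX 2) (hXX 1) (hXX 2) hρ hρX
      have e : (∏ u ∈ univ.erase (0 : Fin 3), (X u : ℝ) ^ (N - 1)) =
          (X 1 : ℝ) ^ (N - 1) * (X 2 : ℝ) ^ (N - 1) := by
        have : (univ.erase (0 : Fin 3)) = {1, 2} := by decide
        rw [this, Finset.prod_pair (by decide)]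
      show ((Bx (nn N) (Function.update X 0 ρ) fun x => QX T 0 x ∧
        x 0 ∈ lat (fun _ : Fin 1 => gv T 0 x) ∧ ¬ PX T x).card : ℝ) ≤
        C * (∏ u ∈ univ.erase (0 : Fin 3), (X u : ℝ) ^ (N - 1)) *
          (X 0 : ℝ) ^ (((2 : ℕ) : ℝ) + ε) * (ρ : ℝ) ^ (N - 1 - 2 - 1)
      rw [e]
      refine le_trans ?_ (h1.trans (real_aux (N := N) (X 1) (X 2) (X 0) ρ C
        (by exact_mod_cast hX 0) (by positivity) (by positivity) hC (by positivity) hε))
      have h2 : (Bx (nn N) (Function.update X 0 ρ) fun x => QX T 0 x ∧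
        x 0 ∈ lat (fun _ : Fin 1 => gv T 0 x) ∧ ¬ PX T x).card ≤
        ((bx N (X 1) ×ˢ bx N (X 2) ×ˢ bx N ρ).filter fun t => g3 (s23 (s12 T)) t.1 t.2.1 ≠ 0 ∧
          R3 (s23 (s12 T)) t.1 ∧ R3 (s12 (s23 (s12 T))) t.2.1 ∧
          tf (s23 (s12 T)) t.1 t.2.1 t.2.2 = 0 ∧ ¬ PN (s23 (s12 T)) t.1 t.2.1 t.2.2).card := by
        apply Finset.card_le_card_of_injOn (fun x => (x 1, x 2, x 0))
        · intro x hx
          rw [Finset.mem_coe, mem_Bx] at hx
          obtain ⟨a1, ⟨a2, a3, a4⟩, a5, a6⟩ := hx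
          rw [Finset.mem_coe, mem_filter, mem_product, mem_product, mem_bx, mem_bx, mem_bx]
          have b0 := a1 0
          have b1 := a1 1
          have b2 := a1 2
          rw [Function.update_self] at b0
          rw [Function.update_of_ne (by decide)] at b1 b2
          refine ⟨⟨b1, b2, b0⟩, a4, (R3_s23 _ _).2 a2, (R3_s23 (s12 (s23 T)) _).2 a3, ?_, ?_⟩
          · show tf (s23 (s12 T)) (x 1) (x 2) (x 0) = 0
            rw [tf_s23, tf_s12, tf_g1, dotProduct_comm]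
            exact (mem_lat.1 a5) 0
          · show ¬ PN (s23 (s12 T)) (x 1) (x 2) (x 0)
            rw [PN_s23, PN_s12]
            exact a6
        · intro x _ x' _ hxx
          simp only [Prod.mk.injEq] at hxx
          funext v
          fin_cases v
          · exact hxx.2.2
          · exact hxx.1
          · exact hxx.2.1
      exact_mod_cast h2
    · -- the second block
      obtain ⟨C, hC, h⟩ := hBd N hN (s23 T) hs.s23
      refine ⟨C, hC, fun X hX hXX ρ hρ hρX => ?_⟩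
      have h1 := h (X 0) (X 2) (X 1) ρ (hX 0) (hX 2) (hXX 0) (hXX 2) hρ hρX
      have e : (∏ u ∈ univ.erase (1 : Fin 3), (X u : ℝ) ^ (N - 1)) =
          (X 0 : ℝ) ^ (N - 1) * (X 2 : ℝ) ^ (N - 1) := by
        have : (univ.erase (1 : Fin 3)) = {0, 2} := by decide
        rw [this, Finset.prod_pair (by decide)]
      show ((Bx (nn N) (Function.update X 1 ρ) fun x => QX T 1 x ∧
        x 1 ∈ lat (fun _ : Fin 1 => gv T 1 x) ∧ ¬ PX T x).card : ℝ) ≤
        C * (∏ u ∈ univ.erase (1 : Fin 3), (X u : ℝ) ^ (N - 1)) *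
          (X 1 : ℝ) ^ (((2 : ℕ) : ℝ) + ε) * (ρ : ℝ) ^ (N - 1 - 2 - 1)
      rw [e]
      refine le_trans ?_ (h1.trans (real_aux (N := N) (X 0) (X 2) (X 1) ρ C
        (by exact_mod_cast hX 1) (by positivity) (by positivity) hC (by positivity) hε))
      have h2 : (Bx (nn N) (Function.update X 1 ρ) fun x => QX T 1 x ∧
        x 1 ∈ lat (fun _ : Fin 1 => gv T 1 x) ∧ ¬ PX T x).card ≤
        ((bx N (X 0) ×ˢ bx N (X 2) ×ˢ bx N ρ).filter fun t => g3 (s23 T) t.1 t.2.1 ≠ 0 ∧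
          R3 (s23 T) t.1 ∧ R3 (s12 (s23 T)) t.2.1 ∧
          tf (s23 T) t.1 t.2.1 t.2.2 = 0 ∧ ¬ PN (s23 T) t.1 t.2.1 t.2.2).card := by
        apply Finset.card_le_card_of_injOn (fun x => (x 0, x 2, x 1))
        · intro x hx
          rw [Finset.mem_coe, mem_Bx] at hx
          obtain ⟨a1, ⟨a2, a3, a4⟩, a5, a6⟩ := hx
          rw [Finset.mem_coe, mem_filter, mem_product, mem_product, mem_bx, mem_bx, mem_bx]
          have b0 := a1 0
          have b1 := a1 1
          have b2 := a1 2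
          rw [Function.update_self] at b1
          rw [Function.update_of_ne (by decide)] at b0 b2
          refine ⟨⟨b0, b2, b1⟩, a4, (R3_s23 _ _).2 a2, a3, ?_, ?_⟩
          · show tf (s23 T) (x 0) (x 2) (x 1) = 0
            rw [tf_s23, tf_g2, dotProduct_comm]
            exact (mem_lat.1 a5) 0
          · show ¬ PN (s23 T) (x 0) (x 2) (x 1)
            rw [PN_s23]
            exact a6
        · intro x _ x' _ hxx
          simp only [Prod.mk.injEq] at hxx
          funext v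
          fin_cases v
          · exact hxx.1
          · exact hxx.2.2
          · exact hxx.2.1
      exact_mod_cast h2
    · -- the third block
      obtain ⟨C, hC, h⟩ := hBd N hN T hs
      refine ⟨C, hC, fun X hX hXX ρ hρ hρX => ?_⟩
      have h1 := h (X 0) (X 1) (X 2) ρ (hX 0) (hX 1) (hXX 0) (hXX 1) hρ hρX
      have e : (∏ u ∈ univ.erase (2 : Fin 3), (X u : ℝ) ^ (N - 1)) =
          (X 0 : ℝ) ^ (N - 1) * (X 1 : ℝ) ^ (N - 1) := by
        have : (univ.erase (2 : Fin 3)) = {0, 1} := by decide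
        rw [this, Finset.prod_pair (by decide)]
      show ((Bx (nn N) (Function.update X 2 ρ) fun x => QX T 2 x ∧
        x 2 ∈ lat (fun _ : Fin 1 => gv T 2 x) ∧ ¬ PX T x).card : ℝ) ≤
        C * (∏ u ∈ univ.erase (2 : Fin 3), (X u : ℝ) ^ (N - 1)) *
          (X 2 : ℝ) ^ (((2 : ℕ) : ℝ) + ε) * (ρ : ℝ) ^ (N - 1 - 2 - 1)
      rw [e]
      refine le_trans ?_ (h1.trans (real_aux (N := N) (X 0) (X 1) (X 2) ρ C
        (by exact_mod_cast hX 2) (by positivity) (by positivity) hC (by positivity) hε))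
      have h2 : (Bx (nn N) (Function.update X 2 ρ) fun x => QX T 2 x ∧
        x 2 ∈ lat (fun _ : Fin 1 => gv T 2 x) ∧ ¬ PX T x).card ≤
        ((bx N (X 0) ×ˢ bx N (X 1) ×ˢ bx N ρ).filter fun t => g3 T t.1 t.2.1 ≠ 0 ∧
          R3 T t.1 ∧ R3 (s12 T) t.2.1 ∧
          tf T t.1 t.2.1 t.2.2 = 0 ∧ ¬ PN T t.1 t.2.1 t.2.2).card := by
        apply Finset.card_le_card_of_injOn (fun x => (x 0, x 1, x 2))
        · intro x hx
          rw [Finset.mem_coe, mem_Bx] at hx
          obtain ⟨a1, ⟨a2, a3, a4⟩, a5, a6⟩ := hx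
          rw [Finset.mem_coe, mem_filter, mem_product, mem_product, mem_bx, mem_bx, mem_bx]
          have b0 := a1 0
          have b1 := a1 1
          have b2 := a1 2
          rw [Function.update_self] at b2
          rw [Function.update_of_ne (by decide)] at b0 b1
          refine ⟨⟨b0, b1, b2⟩, a4, a2, a3, ?_, ?_⟩
          · show tf T (x 0) (x 1) (x 2) = 0
            rw [tf_g3, dotProduct_comm]
            exact (mem_lat.1 a5) 0
          · exact a6
        · intro x _ x' _ hxx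
          simp only [Prod.mk.injEq] at hxx
          funext v
          fin_cases v
          · exact hxx.1
          · exact hxx.2.1
          · exact hxx.2.2
      exact_mod_cast h2

end Pool.Agent.T6.H97.TB
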