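import Mathlib
import Pool.Agent.T6.H97.TB.Asm
import Pool.Agent.T6.H97.TA.Fin

/-!
All heights, in all dimensions.
-/

set_option autoImplicit false

namespace Pool.Agent.T6.H97.TB

open Finset Module Matrix Filter Topology
open Pool.Agent.H548.WM (ht bx mem_bx Rep ht_pos)
open Pool.Agent.H548.BL (lat mem_lat rep_ne)
open Pool.Agent.H548.TL (g1 g2 g3 tf Sm s12 s23 Tx InU InV tri evz evz_map evz_int tf_g1 tf_g2
  tf_g3 Pts Tx_mulVec vecMul_Tx g2_s12)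
open Pool.Agent.T6.H81.BG (Pt Bx mem_Bx FS StmtC3 StmtP3 StmtH3 StmtW3 StmtZ3 LFs Cone Phs ic
  am_lim am_pos)

/-! ### Cones -/

theorem tf_smul {K : Type} [Field K] {N : ℕ} (T : TN N) (s0 s1 s2 : K) (x y z : Fin N → K) :
    tf T (s0 • x) (s1 • y) (s2 • z) = s0 * s1 * s2 * tf T x y z := by
  unfold tf
  simp only [Finset.mul_sum, Pi.smul_apply, smul_eq_mul]
  refine Finset.sum_congr rfl fun i _ => Finset.sum_congr rfl fun j _ =>
    Finset.sum_congr rfl fun k _ => ?_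
  ring

theorem cone_tf {K : Type} [NormedField K] {N : ℕ} (T : TN N) :
    Cone (n := nn N) {x : ∀ v, Fin (nn N v) → K | tf T (x 0) (x 1) (x 2) = 0} := by
  constructor
  · apply isClosed_eq _ continuous_const
    unfold tf
    fun_prop
  · intro x hx s _
    rw [Set.mem_ofPred_eq] at hx ⊢
    show tf T (s 0 • x 0) (s 1 • x 1) (s 2 • x 2) = 0
    rw [tf_smul, hx, mul_zero]

theorem tf_cast {R : Type} [CommRing R] {N : ℕ} (T : TN N) (x y z : Fin N → ℤ) :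
    tf T (fun i => ((x i : ℤ) : R)) (fun i => ((y i : ℤ) : R)) (fun i => ((z i : ℤ) : R)) =
      ((tf T x y z : ℤ) : R) := by
  unfold tf
  push_cast
  rfl

theorem ic_mem0 {N : ℕ} (T : TN N) (x : Pt (nn N)) (hx : tf T (x 0) (x 1) (x 2) = 0) :
    ic ℝ x ∈ {x : ∀ v, Fin (nn N v) → ℝ | tf T (x 0) (x 1) (x 2) = 0} := by
  show tf T (fun i => ((x 0 i : ℤ) : ℝ)) (fun i => ((x 1 i : ℤ) : ℝ))
    (fun i => ((x 2 i : ℤ) : ℝ)) = 0
  rw [tf_cast, hx, Int.cast_zero]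

theorem ic_memp {N : ℕ} (T : TN N) (x : Pt (nn N)) (hx : tf T (x 0) (x 1) (x 2) = 0)
    (p : Nat.Primes) :
    ic ℚ_[p] x ∈ {x : ∀ v, Fin (nn N v) → ℚ_[p] | tf T (x 0) (x 1) (x 2) = 0} := by
  show tf T (fun i => ((x 0 i : ℤ) : ℚ_[p])) (fun i => ((x 1 i : ℤ) : ℚ_[p]))
    (fun i => ((x 2 i : ℤ) : ℚ_[p])) = 0
  rw [tf_cast, hx, Int.cast_zero]

/-- The limit for `N ≥ 4`. -/
theorem lim_big (hC : StmtC3) (hP : StmtP3) (hH : StmtH3) (hW : StmtW3) (hZ : StmtZ3)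
    (hBd : StmtBd) {N : ℕ} (hN : 4 ≤ N) (T : TN N) (hs : Sm ℂ T)
    (ψ : (∀ v, Fin (nn N v) → ℝ) → ℝ) (S : Finset Nat.Primes)
    (φ : ∀ p : Nat.Primes, (∀ v, Fin (nn N v) → ℚ_[p]) → ℝ)
    (hψ : LFs {x : ∀ v, Fin (nn N v) → ℝ | tf T (x 0) (x 1) (x 2) = 0} ψ)
    (hφ : ∀ p ∈ S, LFs {x : ∀ v, Fin (nn N v) → ℚ_[p] | tf T (x 0) (x 1) (x 2) = 0} (φ p)) :
    ∃ c : ℝ, Tendsto (fun B : ℝ => ({x : Pt (nn N) | (∀ v, Rep (x v)) ∧ PX T x ∧
      (∏ v, (ht (x v) : ℝ) ^ (N - 1)) * Phs ψ S φ x ≤ B}.ncard : ℝ) / (B * Real.log B ^ 2))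
      atTop (𝓝 c) :=
  am_lim hC hP hH hW hZ (fs hN hBd hs)
    {x : ∀ v, Fin (nn N v) → ℝ | tf T (x 0) (x 1) (x 2) = 0}
    (fun p => {x : ∀ v, Fin (nn N v) → ℚ_[p] | tf T (x 0) (x 1) (x 2) = 0}) (cone_tf T)
    (fun p => cone_tf T) (fun x hx => ic_mem0 T x hx.1.1) (fun x hx p => ic_memp T x hx.1.1 p)
    ψ S φ hψ hφ

/-! ### The plane -/

theorem PX_three (T : TN 3) (x : Pt (nn 3)) (hx : ∀ v, Rep (x v)) :
    TA.PU T x ↔ PX T x := by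
  have hne : ∀ v, x v ≠ 0 := fun v => rep_ne (hx v)
  constructor
  · rintro ⟨h0, h1, h2, h3⟩
    have e1 : (Tx T (x 0)).det ≠ 0 := h1
    have e2 : (Tx (s12 T) (x 1)).det ≠ 0 := h2
    have e3 : (Tx (s12 (s23 T)) (x 2)).det ≠ 0 := h3
    refine ⟨⟨h0, ?_, ?_, ?_⟩, rows_of_det le_rfl e1, rows_of_det le_rfl e2,
      rows_of_det le_rfl e3⟩
    · intro hc
      rw [← g2_s12, ← Tx_mulVec] at hc
      exact hne 2 (Matrix.eq_zero_of_mulVec_eq_zero e2 hc)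
    · intro hc
      rw [← Tx_mulVec] at hc
      exact hne 2 (Matrix.eq_zero_of_mulVec_eq_zero e1 hc)
    · intro hc
      rw [← vecMul_Tx] at hc
      exact hne 1 (Matrix.eq_zero_of_vecMul_eq_zero e1 hc)
  · rintro ⟨⟨h0, -, -, -⟩, r1, r2, r3⟩
    exact ⟨h0, det_of_rows r1, det_of_rows r2, det_of_rows r3⟩

/-- The limit for `N = 3`. -/
theorem lim_three (hBox : TA.StmtBox) (hUb : TA.StmtUb) (hHy : TA.StmtHy) (hW : StmtW3)
    (hZ : StmtZ3) (T : TN 3) (hs : Sm ℂ T) (ψ : (∀ v, Fin (nn 3 v) → ℝ) → ℝ)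
    (S : Finset Nat.Primes) (φ : ∀ p : Nat.Primes, (∀ v, Fin (nn 3 v) → ℚ_[p]) → ℝ)
    (hψ : LFs {x : ∀ v, Fin (nn 3 v) → ℝ | tf T (x 0) (x 1) (x 2) = 0} ψ)
    (hφ : ∀ p ∈ S, LFs {x : ∀ v, Fin (nn 3 v) → ℚ_[p] | tf T (x 0) (x 1) (x 2) = 0} (φ p)) :
    ∃ c : ℝ, Tendsto (fun B : ℝ => ({x : Pt (nn 3) | (∀ v, Rep (x v)) ∧ PX T x ∧
      (∏ v, (ht (x v) : ℝ) ^ (3 - 1)) * Phs ψ S φ x ≤ B}.ncard : ℝ) / (B * Real.log B ^ 2))
      atTop (𝓝 c) := by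
  obtain ⟨c, hc⟩ := TA.all_lim hBox hUb hHy hW hZ T hs ψ S φ hψ hφ
  refine ⟨c, hc.congr fun B => ?_⟩
  congr 3
  ext x
  rw [Set.mem_ofPred_eq, Set.mem_ofPred_eq]
  constructor
  · rintro ⟨h1, h2, h3⟩
    exact ⟨h1, (PX_three T x h1).1 h2, h3⟩
  · rintro ⟨h1, h2, h3⟩
    exact ⟨h1, (PX_three T x h1).2 h2, h3⟩

/-! ### The lower bound -/

/-- The product of the three determinants as a polynomial. -/
noncomputable def GG {N : ℕ} (T : TN N) : MvPolynomial (Fin N ⊕ Fin N ⊕ Fin N) ℤ :=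
  (Tx T (fun i => MvPolynomial.X (Sum.inl i))).det *
    (Tx (s12 T) (fun i => MvPolynomial.X (Sum.inr (Sum.inl i)))).det *
    (Tx (s12 (s23 T)) (fun i => MvPolynomial.X (Sum.inr (Sum.inr i)))).det

theorem Tx_map {R S : Type} [CommRing R] [CommRing S] (f : R →+* S) {N : ℕ} (T : TN N)
    (x : Fin N → R) : f (Tx T x).det = (Tx T (fun i => f (x i))).det := by
  rw [RingHom.map_det]
  congr 1
  ext j k
  unfold Tx
  simp [map_sum]

theorem evz_GG {R : Type} [CommRing R] {N : ℕ} (T : TN N) (x y z : Fin N → R) :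
    evz (GG T) (tri x y z) =
      (Tx T x).det * (Tx (s12 T) y).det * (Tx (s12 (s23 T)) z).det := by
  have h : evz (GG T) (tri x y z) =
      (MvPolynomial.eval₂Hom (Int.castRingHom R) (tri x y z)) (GG T) := rfl
  rw [h]
  unfold GG
  rw [map_mul, map_mul, Tx_map, Tx_map, Tx_map]
  congr 1
  · congr 1
    · congr 2
      funext i
      simp [tri]
    · congr 2
      funext i
      simp [tri]
  · congr 2
    funext i
    simp [tri]

theorem lower (hPt : StmtPt) {n : ℕ} (hn : 2 ≤ n) (T : TN (n + 1)) (hs : Sm ℂ T) :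
    ∃ c B₀ : ℝ, 0 < c ∧ ∀ B : ℝ, B₀ ≤ B → c * B * Real.log B ^ 2 ≤
      ({x : Pt (nn (n + 1)) | (∀ v, Rep (x v)) ∧ PX T x ∧
        ∏ v, (ht (x v) : ℝ) ^ (n + 1 - 1) ≤ B}.ncard : ℝ) := by
  obtain ⟨x0, y0, z0, h0, e1, e2, e3⟩ := hPt (n + 1) (by omega) T hs
  have nz : ∀ {R : Type} [CommRing R] [IsDomain R] (T : TN (n + 1)) (v : Fin (n + 1) → R),
      (Tx T v).det ≠ 0 → v ≠ 0 := by
    intro R _ _ T v hv h
    apply hv
    rw [h, Pool.Agent.H548.TL.Tx_zero]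
    exact Matrix.det_zero
  have hG : ∃ (x : Fin (n + 1) → ℂ) (y : Fin (n + 1) → ℂ) (z : Fin (n + 1) → ℂ),
      InV T (GG T) x y z := by
    refine ⟨x0, y0, z0, ⟨h0, ?_, ?_, ?_⟩, ?_⟩
    · intro hc
      rw [← g2_s12, ← Tx_mulVec] at hc
      exact nz _ _ e3 (Matrix.eq_zero_of_mulVec_eq_zero e2 hc)
    · intro hc
      rw [← Tx_mulVec] at hc
      exact nz _ _ e3 (Matrix.eq_zero_of_mulVec_eq_zero e1 hc)
    · intro hc
      rw [← vecMul_Tx] at hc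
      exact nz _ _ e2 (Matrix.eq_zero_of_vecMul_eq_zero e1 hc)
    · rw [evz_GG]
      exact mul_ne_zero (mul_ne_zero e1 e2) e3
  obtain ⟨hfin, ⟨c, B₀, hc, hlow⟩, -⟩ := Pool.Agent.H548.TL.order hn hn hn T hs (GG T) hG
  refine ⟨c, max B₀ 1, hc, fun B hB => ?_⟩
  have hB0 : B₀ ≤ B := (le_max_left _ _).trans hB
  have hB1 : 1 ≤ B := (le_max_right _ _).trans hB
  refine (hlow B hB0).trans ?_
  set e : ((Fin (n + 1) → ℤ) × (Fin (n + 1) → ℤ) × (Fin (n + 1) → ℤ)) → Pt (nn (n + 1)) :=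
    fun t => ![t.1, t.2.1, t.2.2] with he
  have hinj : Function.Injective e := by
    intro t t' h
    have h0 := congrFun h 0
    have h1 := congrFun h 1
    have h2 := congrFun h 2
    exact Prod.ext h0 (Prod.ext h1 h2)
  have hsub : e '' (Pts T (GG T) B) ⊆ {x : Pt (nn (n + 1)) | (∀ v, Rep (x v)) ∧ PX T x ∧
      ∏ v, (ht (x v) : ℝ) ^ (n + 1 - 1) ≤ B} := by
    rintro _ ⟨t, ⟨r1, r2, r3, ⟨hU, hGt⟩, hh⟩, rfl⟩
    rw [evz_GG] at hGt
    have d1 : (Tx T t.1).det ≠ 0 := fun h => hGt (by rw [h, zero_mul, zero_mul])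
    have d2 : (Tx (s12 T) t.2.1).det ≠ 0 := fun h => hGt (by rw [h, mul_zero, zero_mul])
    have d3 : (Tx (s12 (s23 T)) t.2.2).det ≠ 0 := fun h => hGt (by rw [h, mul_zero])
    refine ⟨?_, ?_, ?_⟩
    · intro v
      fin_cases v
      · exact r1
      · exact r2
      · exact r3
    · exact ⟨hU, rows_of_det (by omega) d1, rows_of_det (by omega) d2,
        rows_of_det (by omega) d3⟩
    · rw [Fin.prod_univ_three]
      exact hh
  have hfin2 : {x : Pt (nn (n + 1)) | (∀ v, Rep (x v)) ∧ PX T x ∧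
      ∏ v, (ht (x v) : ℝ) ^ (n + 1 - 1) ≤ B}.Finite := by
    have := Pool.Agent.T6.H81.BG.fin_aux (n := nn (n + 1)) (r := fun _ => n + 1 - 1)
      (fun _ => by omega) {x : Pt (nn (n + 1)) | (∀ v, Rep (x v)) ∧ PX T x}
      (fun x hx v => ht_pos (rep_ne (hx.1 v))) B
    refine this.subset ?_
    rintro x ⟨h1, h2, h3⟩
    exact ⟨⟨h1, h2⟩, h3⟩
  have h5 := Set.ncard_le_ncard hsub hfin2
  rw [Set.ncard_image_of_injective _ hinj] at h5
  exact_mod_cast h5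

/-! ### The theorem -/

/-- The matrix of the bilinear form for the given first argument has rank at least three. -/
def Rk3 {R : Type} [CommRing R] {N : ℕ} (T : TN N) (x : Fin N → R) : Prop :=
  ∃ g : Fin 3 → Fin N, LinearIndependent R (fun s => Tx T x (g s))

/-- The points of the open set `U` of the divisor: none of the three vectors of partial
derivatives is zero, and the matrices of the three bilinear forms which the trilinear form becomes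
for one fixed argument have rank at least three. -/
def InW {R : Type} [CommRing R] {N : ℕ} (T : TN N) (P : Fin 3 → Fin N → R) : Prop :=
  InU T (P 0) (P 1) (P 2) ∧ Rk3 T (P 0) ∧ Rk3 (s12 T) (P 1) ∧ Rk3 (s12 (s23 T)) (P 2)

theorem nonempty (hPt : StmtPt) {n : ℕ} (hn : 2 ≤ n) (T : TN (n + 1)) (hs : Sm ℂ T) :
    ∃ P : Fin 3 → Fin (n + 1) → ℂ, (∀ i, P i ≠ 0) ∧ InW T P := by
  obtain ⟨x0, y0, z0, h0, e1, e2, e3⟩ := hPt (n + 1) (by omega) T hs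
  have nz : ∀ {R : Type} [CommRing R] [IsDomain R] (T : TN (n + 1)) (v : Fin (n + 1) → R),
      (Tx T v).det ≠ 0 → v ≠ 0 := by
    intro R _ _ T v hv h
    apply hv
    rw [h, Pool.Agent.H548.TL.Tx_zero]
    exact Matrix.det_zero
  refine ⟨![x0, y0, z0], ?_, ⟨h0, ?_, ?_, ?_⟩, rows_of_det (by omega) e1,
    rows_of_det (by omega) e2, rows_of_det (by omega) e3⟩
  · intro i
    fin_cases i
    · exact nz _ _ e1
    · exact nz _ _ e2
    · exact nz _ _ e3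
  · intro hc
    rw [← g2_s12, ← Tx_mulVec] at hc
    exact nz _ _ e3 (Matrix.eq_zero_of_mulVec_eq_zero e2 hc)
  · intro hc
    rw [← Tx_mulVec] at hc
    exact nz _ _ e3 (Matrix.eq_zero_of_mulVec_eq_zero e1 hc)
  · intro hc
    rw [← vecMul_Tx] at hc
    exact nz _ _ e2 (Matrix.eq_zero_of_vecMul_eq_zero e1 hc)

/-- **The theorem.** -/
theorem main (hC : StmtC3) (hP : StmtP3) (hH : StmtH3) (hW : StmtW3) (hZ : StmtZ3)
    (hBox : TA.StmtBox) (hUb : TA.StmtUb) (hHy : TA.StmtHy) (hBd : StmtBd) (hPt : StmtPt)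
    {n : ℕ} (hn : 2 ≤ n) (T : TN (n + 1)) (hs : Sm ℂ T)
    (ψ : (∀ v, Fin (nn (n + 1) v) → ℝ) → ℝ) (S : Finset Nat.Primes)
    (φ : ∀ p : Nat.Primes, (∀ v, Fin (nn (n + 1) v) → ℚ_[p]) → ℝ)
    (hψ : LFs {x : ∀ v, Fin (nn (n + 1) v) → ℝ | tf T (x 0) (x 1) (x 2) = 0} ψ)
    (hφ : ∀ p ∈ S, LFs {x : ∀ v, Fin (nn (n + 1) v) → ℚ_[p] |
      tf T (x 0) (x 1) (x 2) = 0} (φ p)) :
    ∃ c : ℝ, 0 < c ∧ Tendsto (fun B : ℝ =>
      ({P : Fin 3 → Fin (n + 1) → ℤ | (∀ i, Rep (P i)) ∧ InW T P ∧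
        (∏ i, (ht (P i) : ℝ) ^ n) * Phs (n := nn (n + 1)) ψ S φ P ≤ B}.ncard : ℝ) /
        (B * Real.log B ^ 2)) atTop (𝓝 c) := by
  have hlim : ∃ c : ℝ, Tendsto (fun B : ℝ => ({x : Pt (nn (n + 1)) | (∀ v, Rep (x v)) ∧ PX T x ∧
      (∏ v, (ht (x v) : ℝ) ^ (n + 1 - 1)) * Phs ψ S φ x ≤ B}.ncard : ℝ) /
      (B * Real.log B ^ 2)) atTop (𝓝 c) := by
    rcases Nat.lt_or_ge n 3 with h3 | h3
    · obtain rfl : n = 2 := by omega
      exact lim_three hBox hUb hHy hW hZ T hs ψ S φ hψ hφ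
    · exact lim_big hC hP hH hW hZ hBd (by omega) T hs ψ S φ hψ hφ
  obtain ⟨c, hc⟩ := hlim
  obtain ⟨c0, B₀, hc0, hlow⟩ := lower hPt hn T hs
  have hpos := am_pos hZ (m := 2) (n := nn (n + 1)) (r := fun _ => n + 1 - 1)
    (fun _ => by omega) (P := PX T)
    {x : ∀ v, Fin (nn (n + 1) v) → ℝ | tf T (x 0) (x 1) (x 2) = 0}
    (fun p => {x : ∀ v, Fin (nn (n + 1) v) → ℚ_[p] | tf T (x 0) (x 1) (x 2) = 0}) (cone_tf T)
    (fun p => cone_tf T) (fun x hx => ic_mem0 T x hx.1.1) (fun x hx p => ic_memp T x hx.1.1 p)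
    ψ S φ hψ hφ hc0 (B₀ := B₀) hlow hc
  exact ⟨c, hpos, hc⟩

end Pool.Agent.T6.H97.TB
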