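import Pool.Agent.T6.H97.TB.Defs
import Pool.Agent.H548.TL.Gen

/-! Module Pt (helper29): a complex point of the divisor with nonzero determinants. -/

set_option autoImplicit false

namespace Pool.Agent.T6.H97.TB

open Finset Matrix Filter Topology MeasureTheory
open Pool.Agent.H548.WM (ht bx)
open Pool.Agent.H548.TL (g1 g2 g3 tf Sm s12 s23 Tx InU)

namespace ModPt

open Pool.Agent.H548.TL Polynomial

theorem poly {N : ℕ} (T : TN N) (x0 x1 : Fin N → ℂ) :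
    ∃ P : ℂ[X], ∀ t : ℂ, P.eval t = (Tx T (x0 + t • (x1 - x0))).det := by
  refine ⟨(Tx T (fun i => C (x0 i) + X * C (x1 i - x0 i))).det, fun t => ?_⟩
  rw [← Polynomial.coe_evalRingHom, RingHom.map_det, RingHom.mapMatrix_apply, Tx_map]
  congr 2
  funext i
  simp

theorem ex_t {N : ℕ} (T S : TN N) (x0 x1 y0 y1 : Fin N → ℂ) (h0 : (Tx T x0).det ≠ 0)
    (h1 : (Tx S y1).det ≠ 0) : ∃ t : ℂ, (Tx T (x0 + t • (x1 - x0))).det ≠ 0 ∧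
      (Tx S (y0 + t • (y1 - y0))).det ≠ 0 := by
  obtain ⟨P, hP⟩ := poly T x0 x1
  obtain ⟨Q, hQ⟩ := poly S y0 y1
  have hP0 : P ≠ 0 := by
    rintro rfl
    have := hP 0
    rw [eval_zero, zero_smul, add_zero] at this
    exact h0 this.symm
  have hQ0 : Q ≠ 0 := by
    rintro rfl
    have := hQ 1
    rw [eval_zero, one_smul, add_sub_cancel] at this
    exact h1 this.symm
  obtain ⟨t, ht⟩ : ∃ t : ℂ, (P * Q).eval t ≠ 0 := by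
    by_contra hcon
    push Not at hcon
    exact mul_ne_zero hP0 hQ0 (Polynomial.funext fun t => by rw [hcon t, eval_zero])
  rw [eval_mul, hP, hQ] at ht
  exact ⟨t, left_ne_zero_of_mul ht, right_ne_zero_of_mul ht⟩

end ModPt

open Pool.Agent.H548.TL in
/-- module Pt -/
theorem pt (hD : StmtDtN) : StmtPt := by
  intro N hN T hs
  obtain ⟨x0, hx0⟩ := hD N T hs
  obtain ⟨y1, hy1⟩ := hD N (s12 T) hs.s12
  obtain ⟨z, hz⟩ := hD N (s12 (s23 T)) hs.s23.s12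
  set K := Tx (s12 (s23 T)) z with hK
  have hB : ∀ x y : Fin N → ℂ, tf T x y z = x ⬝ᵥ (K *ᵥ y) := by
    intro x y
    rw [tf_g1, hK, Tx_mulVec, g2_s12, g1_s23]
  -- x1
  obtain ⟨x1, hx1, hx1'⟩ : ∃ x1 : Fin N → ℂ, x1 ≠ 0 ∧ x1 ⬝ᵥ (K *ᵥ y1) = 0 := by
    obtain ⟨η, h1, h2⟩ := exists_ker (Matrix.of fun (_ : Fin 1) => K *ᵥ y1) (by
      refine lt_of_le_of_lt (Matrix.rank_le_height _) ?_
      omega)
    refine ⟨η, h1, ?_⟩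
    have := congrFun h2 0
    rw [dotProduct_comm]
    exact this
  obtain ⟨u1, hu1⟩ : ∃ u1 : Fin N → ℂ, x1 ⬝ᵥ (K *ᵥ u1) = 1 := by
    have h3 : x1 ᵥ* K ≠ 0 := fun h => hx1 (Matrix.eq_zero_of_vecMul_eq_zero hz h)
    obtain ⟨j, hj⟩ : ∃ j, (x1 ᵥ* K) j ≠ 0 := by
      by_contra hcon
      push Not at hcon
      exact h3 (funext hcon)
    refine ⟨Pi.single j ((x1 ᵥ* K) j)⁻¹, ?_⟩
    rw [dotProduct_mulVec, dotProduct_single]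
    exact mul_inv_cancel₀ hj
  let Y : (Fin N → ℂ) → (Fin N → ℂ) := fun x =>
    (x ⬝ᵥ (K *ᵥ u1)) • y1 - (x ⬝ᵥ (K *ᵥ y1)) • u1
  have hY1 : Y x1 = y1 := by
    show (x1 ⬝ᵥ (K *ᵥ u1)) • y1 - (x1 ⬝ᵥ (K *ᵥ y1)) • u1 = y1
    rw [hu1, hx1', one_smul, zero_smul, sub_zero]
  obtain ⟨t, ht1, ht2⟩ := ModPt.ex_t T (s12 T) x0 x1 (Y x0) (Y x1) hx0 (by rw [hY1]; exact hy1)
  have hYt : Y (x0 + t • (x1 - x0)) = Y x0 + t • (Y x1 - Y x0) := by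
    show (((x0 + t • (x1 - x0)) ⬝ᵥ (K *ᵥ u1)) • y1 - ((x0 + t • (x1 - x0)) ⬝ᵥ (K *ᵥ y1)) • u1) =
      ((x0 ⬝ᵥ (K *ᵥ u1)) • y1 - (x0 ⬝ᵥ (K *ᵥ y1)) • u1) +
        t • (((x1 ⬝ᵥ (K *ᵥ u1)) • y1 - (x1 ⬝ᵥ (K *ᵥ y1)) • u1) -
          ((x0 ⬝ᵥ (K *ᵥ u1)) • y1 - (x0 ⬝ᵥ (K *ᵥ y1)) • u1))
    simp only [add_dotProduct, smul_dotProduct, sub_dotProduct, smul_eq_mul]
    module
  refine ⟨x0 + t • (x1 - x0), Y (x0 + t • (x1 - x0)), z, ?_, ht1, ?_, hz⟩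
  · rw [hB]
    show (x0 + t • (x1 - x0)) ⬝ᵥ (K *ᵥ (((x0 + t • (x1 - x0)) ⬝ᵥ (K *ᵥ u1)) • y1 -
      ((x0 + t • (x1 - x0)) ⬝ᵥ (K *ᵥ y1)) • u1)) = 0
    rw [mulVec_sub, mulVec_smul, mulVec_smul, dotProduct_sub, dotProduct_smul, dotProduct_smul,
      smul_eq_mul, smul_eq_mul]
    ring
  · rw [hYt]; exact ht2

end Pool.Agent.T6.H97.TB
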