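import Pool.Agent.T6.H97.TB.Defs
import Pool.Agent.H548.TL.Fo

set_option autoImplicit false

namespace Pool.Agent.T6.H97.TB

open Finset Matrix Filter Topology MeasureTheory
open Pool.Agent.H548.WM (ht bx)
open Pool.Agent.H548.TL (g1 g2 g3 tf Sm s12 s23 Tx InU)

namespace ModRkN

open Module

/-- the functional `z ↦ u · z` -/
def dl {N : ℕ} (u : Fin N → ℂ) : (Fin N → ℂ) →ₗ[ℂ] ℂ where
  toFun z := u ⬝ᵥ z
  map_add' := dotProduct_add u
  map_smul' := fun c z => dotProduct_smul c u z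

lemma dl_apply {N : ℕ} (u z : Fin N → ℂ) : dl u z = u ⬝ᵥ z := rfl

lemma ker_ge {N : ℕ} (u : Fin N → ℂ) : N ≤ finrank ℂ (LinearMap.ker (dl u)) + 1 := by
  have h := LinearMap.finrank_range_add_finrank_ker (dl u)
  rw [finrank_fintype_fun_eq_card, Fintype.card_fin] at h
  have h2 : finrank ℂ (LinearMap.range (dl u)) ≤ 1 := by
    have := Submodule.finrank_le (LinearMap.range (dl u))
    simpa using this
  omega

lemma ker_eq {N : ℕ} (u : Fin N → ℂ) (hu : u ≠ 0) : finrank ℂ (LinearMap.ker (dl u)) + 1 = N := by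
  have h := LinearMap.finrank_range_add_finrank_ker (dl u)
  rw [finrank_fintype_fun_eq_card, Fintype.card_fin] at h
  have h2 : finrank ℂ (LinearMap.range (dl u)) ≤ 1 := by
    have := Submodule.finrank_le (LinearMap.range (dl u))
    simpa using this
  have h3 : finrank ℂ (LinearMap.range (dl u)) ≠ 0 := by
    intro h0
    rw [Submodule.finrank_eq_zero] at h0
    apply hu
    have h4 : ∀ z, u ⬝ᵥ z = 0 := by
      intro z
      have : dl u z ∈ LinearMap.range (dl u) := ⟨z, rfl⟩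
      rw [h0] at this
      exact this
    exact dotProduct_eq_zero _ h4
  omega

/-- two linear maps have a common combination with a kernel -/
lemma pencil {V W : Type} [AddCommGroup V] [Module ℂ V] [AddCommGroup W] [Module ℂ W]
    [FiniteDimensional ℂ V] [FiniteDimensional ℂ W] [Nontrivial V]
    (hd : finrank ℂ W ≤ finrank ℂ V) (f g : V →ₗ[ℂ] W) :
    ∃ (s t : ℂ) (v : V), (s ≠ 0 ∨ t ≠ 0) ∧ v ≠ 0 ∧ s • f v + t • g v = 0 := by
  by_cases hf : Function.Injective f
  · have hd2 := LinearMap.finrank_le_finrank_of_injective hf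
    let E := LinearEquiv.ofInjectiveOfFinrankEq f hf (le_antisymm hd2 hd)
    obtain ⟨μ, hμ⟩ := Module.End.exists_eigenvalue ((E.symm : W →ₗ[ℂ] V) ∘ₗ g)
    obtain ⟨v, hv⟩ := hμ.exists_hasEigenvector
    refine ⟨-μ, 1, v, Or.inr one_ne_zero, hv.2, ?_⟩
    have h1 : E.symm (g v) = μ • v := hv.apply_eq_smul
    have h2 : g v = μ • E v := by
      rw [← map_smul, ← h1, LinearEquiv.apply_symm_apply]
    have h3 : E v = f v := rfl
    rw [h2, h3, one_smul, neg_smul, neg_add_cancel]
  · have h1 : ¬ LinearMap.ker f = ⊥ := fun h => hf (LinearMap.ker_eq_bot.1 h)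
    obtain ⟨v, hv, hv0⟩ := Submodule.exists_mem_ne_zero_of_ne_bot h1
    refine ⟨1, 0, v, Or.inl one_ne_zero, hv0, ?_⟩
    rw [LinearMap.mem_ker.1 hv]
    simp

/-- a matrix without two independent rows is a product -/
lemma rank_one {N : ℕ} (M : Matrix (Fin N) (Fin N) ℂ)
    (h : ∀ g : Fin 2 → Fin N, ¬ LinearIndependent ℂ (fun s => M (g s))) :
    ∃ c u : Fin N → ℂ, ∀ j k, M j k = c j * u k := by
  by_cases hM : M = 0
  · exact ⟨0, 0, by simp [hM]⟩
  · obtain ⟨j0, hj0⟩ : ∃ j, M j ≠ 0 := by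
      by_contra hcon
      push Not at hcon
      exact hM (funext hcon)
    have key : ∀ j, ∃ a : ℂ, M j = a • M j0 := by
      intro j
      have h1 := h ![j0, j]
      have h2 : (fun s => M ((![j0, j] : Fin 2 → Fin N) s)) = ![M j0, M j] := by
        funext s
        fin_cases s <;> rfl
      rw [h2, LinearIndependent.pair_iff' hj0] at h1
      push Not at h1
      obtain ⟨a, ha⟩ := h1
      exact ⟨a, ha.symm⟩
    choose c hc using key
    exact ⟨c, M j0, fun j k => by rw [hc j]; rfl⟩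

end ModRkN

open ModRkN Module Pool.Agent.H548.TL in
theorem rkN : StmtRkN := by
  intro N hN T hs x hx
  by_contra hcon
  push Not at hcon
  obtain ⟨c, u, hcu⟩ := rank_one (Tx T x) hcon
  -- vectors orthogonal to `u` are in the kernel
  have hZ : ∀ z, u ⬝ᵥ z = 0 → g2 T x z = 0 := by
    intro z hz
    rw [← Tx_mulVec]
    funext j
    show ∑ k, Tx T x j k * z k = 0
    have : ∑ k, Tx T x j k * z k = c j * (u ⬝ᵥ z) := by
      unfold dotProduct
      rw [Finset.mul_sum]
      exact Finset.sum_congr rfl fun k _ => by rw [hcu]; ring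
    rw [this, hz, mul_zero]
  have hY : ∀ y, c ⬝ᵥ y = 0 → g3 T x y = 0 := by
    intro y hy
    rw [← vecMul_Tx]
    funext k
    show ∑ j, y j * Tx T x j k = 0
    have : ∑ j, y j * Tx T x j k = (c ⬝ᵥ y) * u k := by
      unfold dotProduct
      rw [Finset.sum_mul]
      exact Finset.sum_congr rfl fun k _ => by rw [hcu]; ring
    rw [this, hy, zero_mul]
  have hX : ∀ y z, u ⬝ᵥ z = 0 → x ⬝ᵥ g1 T y z = 0 := by
    intro y z hz
    rw [← tf_g1, tf_g2, hZ z hz, dotProduct_zero]
  -- two independent vectors of `Z0`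
  have hZr : 1 < finrank ℂ (LinearMap.ker (dl u)) := by
    have := ker_ge u
    omega
  have hnt : Nontrivial (LinearMap.ker (dl u)) := by
    apply Module.nontrivial_of_finrank_pos (R := ℂ)
    omega
  obtain ⟨z1, hz1⟩ := exists_ne (0 : LinearMap.ker (dl u))
  obtain ⟨z2, hz12⟩ := exists_linearIndependent_pair_of_one_lt_finrank hZr hz1
  let m : (Fin N → ℂ) → ((Fin N → ℂ) →ₗ[ℂ] (Fin N → ℂ)) :=
    fun z => (Tx (s12 (s23 T)) z).mulVecLin
  have hm : ∀ z y, m z y = g1 T y z := by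
    intro z y
    show (Tx (s12 (s23 T)) z) *ᵥ y = _
    rw [Tx_mulVec, g2_s12, g1_s23]
  have hmem : ∀ (z : LinearMap.ker (dl u)) (y : Fin N → ℂ), y ∈ LinearMap.ker (dl c) →
      m z y ∈ LinearMap.ker (dl x) := by
    intro z y _
    rw [LinearMap.mem_ker, dl_apply, hm]
    exact hX y z z.2
  have hYr := ker_ge c
  have hXr := ker_eq x hx
  have hntY : Nontrivial (LinearMap.ker (dl c)) := by
    apply Module.nontrivial_of_finrank_pos (R := ℂ)
    omega
  obtain ⟨s, t, y, hst, hy0, hy⟩ := pencil (V := LinearMap.ker (dl c)) (W := LinearMap.ker (dl x))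
    (by omega) ((m z1).restrict (hmem z1)) ((m z2).restrict (hmem z2))
  have hy' : s • g1 T y z1 + t • g1 T (y : Fin N → ℂ) z2 = 0 := by
    have := congrArg Subtype.val hy
    rw [← hm, ← hm]
    exact this
  have hz0 : s • z1 + t • z2 ≠ 0 := by
    intro h
    have := LinearIndependent.pair_iff.1 hz12 s t h
    rcases hst with h1 | h1
    · exact h1 this.1
    · exact h1 this.2
  obtain ⟨z, hz⟩ : ∃ z, z = s • z1 + t • z2 := ⟨_, rfl⟩
  refine hs x y z hx (fun h => hy0 (Subtype.ext h)) (fun h => hz0 ?_) ⟨?_, ?_, ?_⟩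
  · rw [← hz]
    exact Subtype.ext h
  · rw [hz]
    have h1 : ∀ z' : Fin N → ℂ, g1 T (y : Fin N → ℂ) z' = (Tx (s12 T) y) *ᵥ z' := by
      intro z'
      rw [Tx_mulVec, g2_s12]
    have h2 : ((s • z1 + t • z2 : LinearMap.ker (dl u)) : Fin N → ℂ) =
      s • (z1 : Fin N → ℂ) + t • (z2 : Fin N → ℂ) := rfl
    rw [h1, h2, mulVec_add, mulVec_smul, mulVec_smul, ← h1, ← h1]
    exact hy'
  · exact hZ z z.2
  · exact hY y y.2

end Pool.Agent.T6.H97.TB
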