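import Mathlib
import Pool.Agent.T6.H97.TB.Defs

/-!
Module V2 (helper8): there are few integer vectors for which the matrix has rank two.
-/

set_option autoImplicit false

namespace Pool.Agent.T6.H97.TB

open Finset Matrix Filter Topology
open Pool.Agent.H548.WM (ht bx mem_bx)
open Pool.Agent.H548.TL
open Pool.Agent.H548.BL (cc cc_zero)

namespace ModV2

/-! ### Ranks and minors -/

lemma exists_rows {K : Type*} [Field K] {ι : Type*} [Fintype ι] {n r : ℕ}
    (M : Matrix ι (Fin n) K) (h : r ≤ M.rank) :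
    ∃ g : Fin r → ι, LinearIndependent K (M.submatrix g id).row := by
  rw [Matrix.rank_eq_finrank_span_row] at h
  obtain ⟨f, hf, -, hli⟩ := Submodule.exists_fun_fin_finrank_span_eq K (Set.range M.row)
  have hf' : ∀ s : Fin r, ∃ j, M.row j = f (Fin.castLE h s) := fun s => hf _
  choose g hg using hf'
  refine ⟨g, ?_⟩
  have h2 := hli.comp (Fin.castLE h) (Fin.castLE_injective h)
  have h3 : (M.submatrix g id).row = f ∘ (Fin.castLE h) := by
    funext s
    exact hg s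
  rw [h3]
  exact h2

lemma exists_minor {K : Type*} [Field K] {ι : Type*} [Fintype ι] {n r : ℕ}
    (M : Matrix ι (Fin n) K) (h : r ≤ M.rank) :
    ∃ (g : Fin r → ι) (c : Fin r → Fin n), (M.submatrix g c).det ≠ 0 := by
  obtain ⟨g, hg⟩ := exists_rows M h
  have h1 : r ≤ (M.submatrix g id)ᵀ.rank := by
    rw [Matrix.rank_transpose, hg.rank_matrix, Fintype.card_fin]
  obtain ⟨c, hc⟩ := exists_rows _ h1
  refine ⟨g, c, ?_⟩
  have h2 : (M.submatrix g id)ᵀ.submatrix c id = (M.submatrix g c)ᵀ := rfl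
  rw [h2, Matrix.linearIndependent_rows_iff_isUnit, Matrix.isUnit_iff_isUnit_det,
    Matrix.det_transpose] at hc
  exact hc.ne_zero

/-- A bilinear map from two planes without zeros has a value space of dimension at least three. -/
lemma rank_three {N : ℕ} (G : Fin 2 → Fin 2 → (Fin N → ℂ))
    (h : ∀ u v : Fin 2 → ℂ, u ≠ 0 → v ≠ 0 → ∑ a, ∑ b, (u a * v b) • G a b ≠ 0) :
    3 ≤ (Matrix.of fun p : Fin 2 × Fin 2 => G p.1 p.2).rank := by
  by_contra hlt
  set M : Matrix (Fin 2 × Fin 2) (Fin N) ℂ := Matrix.of fun p : Fin 2 × Fin 2 => G p.1 p.2 with hM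
  rw [Matrix.rank_eq_finrank_span_row] at hlt
  set W := Submodule.span ℂ (Set.range M.row) with hW
  have hmem : ∀ a b, G a b ∈ W := fun a b => Submodule.subset_span ⟨(a, b), rfl⟩
  -- the two linear maps
  let L : Fin 2 → (Fin 2 → ℂ) →ₗ[ℂ] W := fun b =>
    { toFun := fun u => ⟨∑ a, u a • G a b, Submodule.sum_mem _ fun a _ =>
        Submodule.smul_mem _ _ (hmem a b)⟩
      map_add' := fun u v => by
        ext1
        simp only [Pi.add_apply, add_smul, sum_add_distrib, Submodule.coe_add]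
      map_smul' := fun c u => by
        ext1
        simp only [Pi.smul_apply, smul_eq_mul, mul_smul, ← smul_sum, Submodule.coe_smul,
          RingHom.id_apply] }
  have hL : ∀ b u, ((L b u : W) : Fin N → ℂ) = ∑ a, u a • G a b := fun b u => rfl
  have hinj : Function.Injective (L 0) := by
    rw [← LinearMap.ker_eq_bot, LinearMap.ker_eq_bot']
    intro u hu
    by_contra hne
    refine h u ![1, 0] hne (by intro h0; have := congrFun h0 0; simp at this) ?_
    have h1 := congrArg (Subtype.val) hu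
    rw [hL] at h1
    simp only [Fin.sum_univ_two] at h1 ⊢
    simpa using h1
  have hdim : Module.finrank ℂ (Fin 2 → ℂ) = Module.finrank ℂ W := by
    have h1 := LinearMap.finrank_le_finrank_of_injective hinj
    rw [Module.finrank_fin_fun] at h1 ⊢
    omega
  let e := LinearEquiv.ofInjectiveOfFinrankEq (L 0) hinj hdim
  have he : ∀ u, e u = L 0 u := fun u => rfl
  obtain ⟨c, hc⟩ := Module.End.exists_eigenvalue (e.symm.toLinearMap ∘ₗ L 1)
  obtain ⟨u, hu⟩ := hc.exists_hasEigenvector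
  have h1 := hu.apply_eq_smul
  have h2 := hu.2
  have h3 : L 1 u = c • L 0 u := by
    have h4 := congrArg e h1
    simp only [LinearMap.comp_apply, LinearEquiv.coe_coe, LinearEquiv.apply_symm_apply,
      map_smul] at h4
    rw [h4, he]
  refine h u ![-c, 1] h2 (by intro h0; have := congrFun h0 1; simp at this) ?_
  have h5 := congrArg (Subtype.val) h3
  rw [Submodule.coe_smul, hL, hL] at h5
  simp only [Fin.sum_univ_two] at h5 ⊢
  have e1 : (u 0 * (![-c, 1] : Fin 2 → ℂ) 0) • G 0 0 + (u 0 * (![-c, 1] : Fin 2 → ℂ) 1) • G 0 1 +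
      ((u 1 * (![-c, 1] : Fin 2 → ℂ) 0) • G 1 0 + (u 1 * (![-c, 1] : Fin 2 → ℂ) 1) • G 1 1) =
      (u 0 • G 0 1 + u 1 • G 1 1) - c • (u 0 • G 0 0 + u 1 • G 1 0) := by
    funext i
    simp only [Matrix.cons_val_zero, Matrix.cons_val_one, Pi.add_apply, Pi.smul_apply,
      Pi.sub_apply, smul_eq_mul]
    ring
  rw [e1, h5, sub_self]

/-! ### Kernel vectors -/

section
variable {R : Type*} [CommRing R] {N : ℕ}

/-- A vector in the kernel of a matrix of rank two. -/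
def Zv (A : Matrix (Fin N) (Fin N) R) (i1 i2 j1 j2 j3 : Fin N) : Fin N → R :=
  (A i1 j1 * A i2 j2 - A i1 j2 * A i2 j1) • Pi.single j3 1 +
  ((A i1 j2 * A i2 j3 - A i1 j3 * A i2 j2) • Pi.single j1 1 +
  (A i1 j3 * A i2 j1 - A i1 j1 * A i2 j3) • Pi.single j2 1)

lemma mul_Zv {A : Matrix (Fin N) (Fin N) R}
    (h : ∀ f g : Fin 3 → Fin N, (A.submatrix f g).det = 0) (i1 i2 j1 j2 j3 : Fin N) :
    A *ᵥ Zv A i1 i2 j1 j2 j3 = 0 := by
  funext i
  have h1 := h ![i1, i2, i] ![j1, j2, j3]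
  rw [Matrix.det_fin_three] at h1
  simp only [Matrix.submatrix_apply, Matrix.cons_val_zero, Matrix.cons_val_one,
    Matrix.cons_val] at h1
  unfold Zv
  rw [Matrix.mulVec_add, Matrix.mulVec_add, Matrix.mulVec_smul, Matrix.mulVec_smul,
    Matrix.mulVec_smul, Matrix.mulVec_single_one, Matrix.mulVec_single_one,
    Matrix.mulVec_single_one]
  simp only [Pi.add_apply, Pi.smul_apply, Matrix.col_apply, smul_eq_mul, Pi.zero_apply]
  linear_combination h1

lemma tr_minors {A : Matrix (Fin N) (Fin N) R}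
    (h : ∀ f g : Fin 3 → Fin N, (A.submatrix f g).det = 0) :
    ∀ f g : Fin 3 → Fin N, (Aᵀ.submatrix f g).det = 0 := by
  intro f g
  have h1 : Aᵀ.submatrix f g = (A.submatrix g f)ᵀ := rfl
  rw [h1, Matrix.det_transpose, h]

lemma Zv_apply {A : Matrix (Fin N) (Fin N) R} {i1 i2 j1 j2 j3 j : Fin N} (h1 : j ≠ j1)
    (h2 : j ≠ j2) : Zv A i1 i2 j1 j2 j3 j =
      if j = j3 then (A i1 j1 * A i2 j2 - A i1 j2 * A i2 j1) else 0 := by
  unfold Zv
  simp only [Pi.add_apply, Pi.smul_apply, smul_eq_mul, Pi.single_apply, if_neg h1, if_neg h2,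
    mul_zero, add_zero]
  split_ifs <;> simp

end

section
variable {R : Type*} [CommRing R] {N : ℕ} (T : TN N)

lemma g1_add_left (y y' z : Fin N → R) : g1 T (y + y') z = g1 T y z + g1 T y' z := by
  funext i
  simp only [g1, Pi.add_apply, ← sum_add_distrib]
  exact sum_congr rfl fun j _ => sum_congr rfl fun k _ => by ring

lemma g1_smul_left (c : R) (y z : Fin N → R) : g1 T (c • y) z = c • g1 T y z := by
  funext i
  simp only [g1, Pi.smul_apply, smul_eq_mul, mul_sum]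
  exact sum_congr rfl fun j _ => sum_congr rfl fun k _ => by ring

lemma g1_add_right (y z z' : Fin N → R) : g1 T y (z + z') = g1 T y z + g1 T y z' := by
  funext i
  simp only [g1, Pi.add_apply, ← sum_add_distrib]
  exact sum_congr rfl fun j _ => sum_congr rfl fun k _ => by ring

lemma g1_smul_right (c : R) (y z : Fin N → R) : g1 T y (c • z) = c • g1 T y z := by
  funext i
  simp only [g1, Pi.smul_apply, smul_eq_mul, mul_sum]
  exact sum_congr rfl fun j _ => sum_congr rfl fun k _ => by ring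

lemma g1_comb (u v : Fin 2 → R) (Y Z : Fin 2 → Fin N → R) :
    g1 T (∑ a, u a • Y a) (∑ b, v b • Z b) = ∑ a, ∑ b, (u a * v b) • g1 T (Y a) (Z b) := by
  simp only [Fin.sum_univ_two, g1_add_left, g1_add_right, g1_smul_left, g1_smul_right, smul_smul,
    smul_add]
  rw [mul_comm (v 0) (u 0), mul_comm (v 1) (u 0), mul_comm (v 0) (u 1), mul_comm (v 1) (u 1)]
  abel

/-- All minors of size three of the matrix vanish. -/
def Vn (x : Fin N → R) : Prop := ∀ f g : Fin 3 → Fin N, ((Tx T x).submatrix f g).det = 0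

variable {T}

lemma orth {x x' : Fin N → R} (h : Vn T x) (h' : Vn T x') (i1 i2 j1 j2 i3 j3 : Fin N) :
    (x - x') ⬝ᵥ g1 T (Zv (Tx T x)ᵀ j1 j2 i1 i2 i3) (Zv (Tx T x') i1 i2 j1 j2 j3) = 0 := by
  set y := Zv (Tx T x)ᵀ j1 j2 i1 i2 i3 with hy
  set z := Zv (Tx T x') i1 i2 j1 j2 j3 with hz
  have e1 : g3 T x y = 0 := by
    rw [← vecMul_Tx, ← Matrix.mulVec_transpose]
    exact mul_Zv (tr_minors h) _ _ _ _ _
  have e2 : g2 T x' z = 0 := by
    rw [← Tx_mulVec]
    exact mul_Zv h' _ _ _ _ _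
  rw [sub_dotProduct, ← tf_g1, ← tf_g1, tf_g3, e1, tf_g2, e2]
  simp

end

section complex
variable {N : ℕ} {T : TN N}

lemma comb_ne {K : Type*} [Field K] {A : Matrix (Fin N) (Fin N) K} {i1 i2 j1 j2 : Fin N}
    (hm : A i1 j1 * A i2 j2 - A i1 j2 * A i2 j1 ≠ 0) {q : Fin 2 → Fin N} (hq : q 0 ≠ q 1)
    (h1 : ∀ b, q b ≠ j1) (h2 : ∀ b, q b ≠ j2) {v : Fin 2 → K} (hv : v ≠ 0) :
    ∑ b, v b • Zv A i1 i2 j1 j2 (q b) ≠ 0 := by
  intro h0
  apply hv
  have hqi : Function.Injective q := by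
    intro a b hab
    fin_cases a <;> fin_cases b
    · rfl
    · exact absurd hab hq
    · exact absurd hab.symm hq
    · rfl
  funext b
  have h3 := congrFun h0 (q b)
  simp only [Finset.sum_apply, Pi.smul_apply, smul_eq_mul, Pi.zero_apply] at h3
  have h4 : ∀ c, Zv A i1 i2 j1 j2 (q c) (q b) =
      if c = b then (A i1 j1 * A i2 j2 - A i1 j2 * A i2 j1) else 0 := by
    intro c
    rw [Zv_apply (h1 b) (h2 b)]
    by_cases hcb : c = b
    · rw [if_pos hcb, if_pos (by rw [hcb])]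
    · rw [if_neg hcb, if_neg (fun h => hcb (hqi h.symm))]
  simp only [h4, mul_ite, mul_zero, sum_ite_eq', mem_univ, if_true] at h3
  rcases mul_eq_zero.1 h3 with h | h
  · exact h
  · exact absurd h hm

lemma cspan (hs : Sm ℂ T) {x0 : Fin N → ℂ} (hx0 : x0 ≠ 0) (hV : Vn T x0) {i1 i2 j1 j2 : Fin N}
    (hm : Tx T x0 i1 j1 * Tx T x0 i2 j2 - Tx T x0 i1 j2 * Tx T x0 i2 j1 ≠ 0)
    {p q : Fin 2 → Fin N} (hp : p 0 ≠ p 1) (hp1 : ∀ a, p a ≠ i1) (hp2 : ∀ a, p a ≠ i2)
    (hq : q 0 ≠ q 1) (hq1 : ∀ a, q a ≠ j1) (hq2 : ∀ a, q a ≠ j2) :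
    3 ≤ (Matrix.of fun ab : Fin 2 × Fin 2 => g1 T (Zv (Tx T x0)ᵀ j1 j2 i1 i2 (p ab.1))
      (Zv (Tx T x0) i1 i2 j1 j2 (q ab.2))).rank := by
  refine rank_three (fun a b => g1 T (Zv (Tx T x0)ᵀ j1 j2 i1 i2 (p a))
      (Zv (Tx T x0) i1 i2 j1 j2 (q b))) fun u v hu hv h0 => ?_
  rw [← g1_comb] at h0
  have hm' : (Tx T x0)ᵀ j1 i1 * (Tx T x0)ᵀ j2 i2 - (Tx T x0)ᵀ j1 i2 * (Tx T x0)ᵀ j2 i1 ≠ 0 := by
    simp only [Matrix.transpose_apply]
    intro h
    apply hm
    linear_combination h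
  have hy := comb_ne hm' hp hp1 hp2 hu
  have hz := comb_ne hm hq hq1 hq2 hv
  refine hs x0 _ _ hx0 hy hz ⟨h0, ?_, ?_⟩
  · rw [← Tx_mulVec]
    rw [Matrix.mulVec_sum]
    refine sum_eq_zero fun b _ => ?_
    rw [Matrix.mulVec_smul, mul_Zv hV, smul_zero]
  · rw [← vecMul_Tx, ← Matrix.mulVec_transpose, Matrix.mulVec_sum]
    refine sum_eq_zero fun b _ => ?_
    rw [Matrix.mulVec_smul, mul_Zv (tr_minors hV), smul_zero]

end complex

/-! ### The real case -/

section real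
variable {N : ℕ} {T : TN N}

lemma Tx_cc (x : Fin N → ℝ) : Tx T (cc x) = (Tx T x).map (algebraMap ℝ ℂ) := by
  ext i j
  simp only [Tx, cc, Matrix.of_apply, Matrix.map_apply, Complex.coe_algebraMap]
  push_cast
  rfl

lemma Zv_cc (A : Matrix (Fin N) (Fin N) ℝ) (i1 i2 j1 j2 j3 : Fin N) :
    Zv (A.map (algebraMap ℝ ℂ)) i1 i2 j1 j2 j3 = cc (Zv A i1 i2 j1 j2 j3) := by
  funext j
  simp only [Zv, cc, Matrix.map_apply, Pi.add_apply, Pi.smul_apply, smul_eq_mul,
    Pi.single_apply, Complex.coe_algebraMap]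
  split_ifs <;> push_cast <;> ring

lemma Vn_cc {x : Fin N → ℝ} (h : Vn T x) : Vn T (cc x) := by
  intro f g
  have h1 : (Tx T (cc x)).submatrix f g = ((Tx T x).submatrix f g).map (algebraMap ℝ ℂ) := by
    rw [Tx_cc]; rfl
  rw [h1, ← RingHom.mapMatrix_apply, ← RingHom.map_det, h, map_zero]

/-- the matrix whose determinant is not zero near the diagonal -/
noncomputable def FM (T : TN N) (i1 i2 j1 j2 : Fin N) (p q : Fin 2 → Fin N)
    (r : Fin 3 → Fin 2 × Fin 2) (J : Fin 3 → Fin N) (x x' : Fin N → ℝ) :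
    Matrix (Fin 3) (Fin 3) ℝ :=
  Matrix.of fun s k => g1 T (Zv (Tx T x)ᵀ j1 j2 i1 i2 (p (r s).1))
    (Zv (Tx T x') i1 i2 j1 j2 (q (r s).2)) (J k)

lemma FM_cont (i1 i2 j1 j2 : Fin N) (p q : Fin 2 → Fin N)
    (r : Fin 3 → Fin 2 × Fin 2) (J : Fin 3 → Fin N) :
    Continuous fun w : (Fin N → ℝ) × (Fin N → ℝ) => (FM T i1 i2 j1 j2 p q r J w.1 w.2).det := by
  apply Continuous.matrix_det
  apply continuous_matrix
  intro s k
  simp only [FM, Matrix.of_apply, g1, Zv, Tx, Pi.add_apply, Pi.smul_apply, smul_eq_mul,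
    Matrix.transpose_apply]
  fun_prop

lemma exists_others (hN : 4 ≤ N) (i1 i2 : Fin N) :
    ∃ p : Fin 2 → Fin N, p 0 ≠ p 1 ∧ (∀ a, p a ≠ i1) ∧ ∀ a, p a ≠ i2 := by
  classical
  have h1 : 2 ≤ (univ \ {i1, i2} : Finset (Fin N)).card := by
    have h2 : (univ : Finset (Fin N)).card - ({i1, i2} : Finset (Fin N)).card ≤
        (univ \ {i1, i2} : Finset (Fin N)).card := le_card_sdiff _ _
    have h3 : ({i1, i2} : Finset (Fin N)).card ≤ 2 := card_le_two
    rw [card_univ, Fintype.card_fin] at h2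
    omega
  obtain ⟨a, ha, b, hb, hab⟩ := one_lt_card.1 (show 1 < (univ \ {i1, i2} : Finset (Fin N)).card by
    omega)
  have hm : ∀ c : Fin N, c ∈ (univ \ {i1, i2} : Finset (Fin N)) → c ≠ i1 ∧ c ≠ i2 := by
    intro c hc
    constructor
    · rintro rfl
      simp at hc
    · rintro rfl
      simp at hc
  replace ha := hm a ha
  replace hb := hm b hb
  refine ⟨![a, b], by simpa using hab, ?_, ?_⟩
  · intro c
    fin_cases c
    · exact ha.1
    · exact hb.1
  · intro c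
    fin_cases c
    · exact ha.2
    · exact hb.2

/-- the data at a point -/
lemma data (hRk : StmtRkN) (hN : 4 ≤ N) (hs : Sm ℂ T) {x0 : Fin N → ℝ} (hx0 : x0 ≠ 0)
    (hV : Vn T x0) : ∃ (i1 i2 j1 j2 : Fin N) (p q : Fin 2 → Fin N)
      (r : Fin 3 → Fin 2 × Fin 2) (J : Fin 3 → Fin N), (FM T i1 i2 j1 j2 p q r J x0 x0).det ≠ 0 := by
  have hc : cc x0 ≠ 0 := fun h => hx0 (cc_zero h)
  obtain ⟨g, hg⟩ := hRk N (by omega) T hs (cc x0) hc
  have hrk : 2 ≤ ((Tx T (cc x0)).submatrix g id).rank := by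
    have h1 : LinearIndependent ℂ ((Tx T (cc x0)).submatrix g id).row := hg
    rw [h1.rank_matrix, Fintype.card_fin]
  obtain ⟨g', c, hgc⟩ := exists_minor _ hrk
  rw [Matrix.det_fin_two] at hgc
  simp only [Matrix.submatrix_apply, id] at hgc
  set i1 := g (g' 0)
  set i2 := g (g' 1)
  obtain ⟨p, hp, hp1, hp2⟩ := exists_others hN i1 i2
  obtain ⟨q, hq, hq1, hq2⟩ := exists_others hN (c 0) (c 1)
  have h3 := cspan hs hc (Vn_cc hV) hgc hp hp1 hp2 hq hq1 hq2
  obtain ⟨r, J, hrJ⟩ := exists_minor _ h3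
  refine ⟨i1, i2, c 0, c 1, p, q, r, J, fun h0 => hrJ ?_⟩
  have h4 : (Matrix.of fun ab : Fin 2 × Fin 2 =>
      g1 T (Zv (Tx T (cc x0))ᵀ (c 0) (c 1) i1 i2 (p ab.1))
      (Zv (Tx T (cc x0)) i1 i2 (c 0) (c 1) (q ab.2))).submatrix r J =
      (FM T i1 i2 (c 0) (c 1) p q r J x0 x0).map (algebraMap ℝ ℂ) := by
    ext s k
    have e1 : (Tx T (cc x0))ᵀ = (Tx T x0)ᵀ.map (algebraMap ℝ ℂ) := by rw [Tx_cc]; rfl
    simp only [Matrix.submatrix_apply, Matrix.of_apply, FM, Matrix.map_apply]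
    rw [e1, Tx_cc, Zv_cc, Zv_cc, g1_cc]
    rfl
  rw [h4, ← RingHom.mapMatrix_apply, ← RingHom.map_det, h0, map_zero]

/-- local injectivity -/
lemma loc (hRk : StmtRkN) (hN : 4 ≤ N) (hs : Sm ℂ T) {x0 : Fin N → ℝ} (hx0 : x0 ≠ 0)
    (hV : Vn T x0) : ∃ J : Fin 3 → Fin N, Function.Injective J ∧ ∃ δ : ℝ, 0 < δ ∧
      ∀ x x' : Fin N → ℝ, Vn T x → Vn T x' → x ∈ Metric.ball x0 δ → x' ∈ Metric.ball x0 δ →
        (∀ i, i ∉ Set.range J → x i = x' i) → x = x' := by
  obtain ⟨i1, i2, j1, j2, p, q, r, J, hd⟩ := data hRk hN hs hx0 hV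
  have hJ : Function.Injective J := by
    intro a b hab
    by_contra hne
    apply hd
    apply Matrix.det_zero_of_column_eq hne
    intro s
    simp only [FM, Matrix.of_apply, hab]
  refine ⟨J, hJ, ?_⟩
  have hcont := (FM_cont (T := T) i1 i2 j1 j2 p q r J).continuousAt (x := (x0, x0))
  have h1 : ∀ᶠ w : (Fin N → ℝ) × (Fin N → ℝ) in 𝓝 (x0, x0),
      (FM T i1 i2 j1 j2 p q r J w.1 w.2).det ≠ 0 := hcont.eventually_ne hd
  rw [nhds_prod_eq, Filter.eventually_prod_iff] at h1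
  obtain ⟨pa, hpa, pb, hpb, hab⟩ := h1
  obtain ⟨δ1, hδ1, h1⟩ := Metric.eventually_nhds_iff_ball.1 hpa
  obtain ⟨δ2, hδ2, h2⟩ := Metric.eventually_nhds_iff_ball.1 hpb
  refine ⟨min δ1 δ2, lt_min hδ1 hδ2, ?_⟩
  intro x x' hx hx' hbx hbx' heq
  have h3 : (FM T i1 i2 j1 j2 p q r J x x').det ≠ 0 :=
    hab (h1 x (Metric.ball_subset_ball (min_le_left _ _) hbx))
      (h2 x' (Metric.ball_subset_ball (min_le_right _ _) hbx'))
  have h4 : FM T i1 i2 j1 j2 p q r J x x' *ᵥ (fun k => (x - x') (J k)) = 0 := by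
    funext s
    have h5 := orth hx hx' i1 i2 j1 j2 (p (r s).1) (q (r s).2)
    rw [Pi.zero_apply, ← h5]
    simp only [Matrix.mulVec, dotProduct, FM, Matrix.of_apply]
    have h6 : ∑ k : Fin 3, g1 T (Zv (Tx T x)ᵀ j1 j2 i1 i2 (p (r s).1))
        (Zv (Tx T x') i1 i2 j1 j2 (q (r s).2)) (J k) * (x - x') (J k) =
        ∑ i ∈ univ.image J, (x - x') i * g1 T (Zv (Tx T x)ᵀ j1 j2 i1 i2 (p (r s).1))
        (Zv (Tx T x') i1 i2 j1 j2 (q (r s).2)) i := by
      rw [sum_image (fun a _ b _ h => hJ h)]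
      exact sum_congr rfl fun k _ => mul_comm _ _
    rw [h6]
    apply sum_subset (subset_univ _)
    intro i _ hi
    have h7 : i ∉ Set.range J := by
      rintro ⟨k, rfl⟩
      exact hi (mem_image_of_mem J (mem_univ k))
    rw [Pi.sub_apply, heq i h7, sub_self, zero_mul]
  have h5 := Matrix.eq_zero_of_mulVec_eq_zero h3 h4
  funext i
  by_cases hi : i ∈ Set.range J
  · obtain ⟨k, rfl⟩ := hi
    have h6 := congrFun h5 k
    simp only [Pi.sub_apply, Pi.zero_apply] at h6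
    linarith
  · exact heq i hi

/-- the compact set -/
def KK (T : TN N) : Set (Fin N → ℝ) := {x | 1 / 2 ≤ ‖x‖ ∧ ‖x‖ ≤ 1 ∧ Vn T x}

lemma KK_compact : IsCompact (KK T) := by
  apply Metric.isCompact_of_isClosed_isBounded
  · have h1 : KK T = {x | 1 / 2 ≤ ‖x‖} ∩ ({x | ‖x‖ ≤ 1} ∩
        ⋂ (f : Fin 3 → Fin N), ⋂ (g : Fin 3 → Fin N),
          {x | ((Tx T x).submatrix f g).det = 0}) := by
      ext x
      simp only [KK, Vn, Set.mem_setOf_eq, Set.mem_inter_iff, Set.mem_iInter]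
    rw [h1]
    refine (isClosed_le continuous_const continuous_norm).inter
      ((isClosed_le continuous_norm continuous_const).inter ?_)
    refine isClosed_iInter fun f => isClosed_iInter fun g => isClosed_eq ?_ continuous_const
    apply Continuous.matrix_det
    apply continuous_matrix
    intro s k
    simp only [Matrix.submatrix_apply, Tx, Matrix.of_apply]
    fun_prop
  · refine (Metric.isBounded_closedBall (x := (0 : Fin N → ℝ)) (r := 1)).subset ?_
    intro x hx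
    rw [mem_closedBall_zero_iff]
    exact hx.2.1

lemma Vn_smul {x : Fin N → ℝ} (h : Vn T x) (c : ℝ) : Vn T (c • x) := by
  intro f g
  have h1 : (Tx T (c • x)).submatrix f g = c • (Tx T x).submatrix f g := by
    ext s k
    simp only [Matrix.submatrix_apply, Tx, Matrix.of_apply, Matrix.smul_apply, Pi.smul_apply,
      smul_eq_mul, mul_sum]
    exact sum_congr rfl fun i _ => by ring
  rw [h1, Matrix.det_smul, h, mul_zero]

lemma Vn_int {x : Fin N → ℤ} (h : ¬ R3 T x) : Vn T (fun i => (x i : ℝ)) := by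
  intro f g
  have h1 : (Tx T (fun i => (x i : ℝ))).submatrix f g =
      ((Tx T x).submatrix f g).map (Int.castRingHom ℝ) := by
    ext s k
    simp only [Matrix.submatrix_apply, Tx, Matrix.of_apply, Matrix.map_apply, map_sum, map_mul]
    simp
  rw [h1, ← RingHom.mapMatrix_apply, ← RingHom.map_det]
  by_contra hne
  have h2 : ((Tx T x).submatrix f g).det ≠ 0 := fun h0 => hne (by rw [h0, map_zero])
  apply h
  refine ⟨f, ?_⟩
  rw [Fintype.linearIndependent_iff]
  intro c hc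
  have h3 : c ᵥ* (Tx T x).submatrix f g = 0 := by
    funext k
    have h4 := congrFun hc (g k)
    simp only [Finset.sum_apply, Pi.smul_apply, smul_eq_mul, Pi.zero_apply] at h4
    simp only [Matrix.vecMul, dotProduct, Matrix.submatrix_apply, Pi.zero_apply]
    exact h4
  have h4 := Matrix.eq_zero_of_vecMul_eq_zero h2 h3
  exact fun i => congrFun h4 i

open Classical in
/-- the vectors in the upper half of the box -/
lemma half (hRk : StmtRkN) (hN : 4 ≤ N) (hs : Sm ℂ T) : ∃ m : ℕ, ∀ ρ : ℕ, 1 ≤ ρ →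
    ((bx N ρ).filter fun x => (x ≠ 0 ∧ ¬ R3 T x) ∧ ρ < 2 * ht x).card ≤
      m * (2 * ρ + 1) ^ (N - 3) := by
  have hloc : ∀ x0 : KK T, ∃ J : Fin 3 → Fin N, Function.Injective J ∧ ∃ δ : ℝ, 0 < δ ∧
      ∀ x x' : Fin N → ℝ, Vn T x → Vn T x' → x ∈ Metric.ball (x0 : Fin N → ℝ) δ →
        x' ∈ Metric.ball (x0 : Fin N → ℝ) δ →
        (∀ i, i ∉ Set.range J → x i = x' i) → x = x' := by
    intro x0
    refine loc hRk hN hs ?_ x0.2.2.2
    intro h0
    have h1 := x0.2.1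
    rw [h0, norm_zero] at h1
    norm_num at h1
  choose J hJ δ hδ hinj using hloc
  obtain ⟨t, ht'⟩ := (KK_compact (T := T)).elim_nhds_subcover'
    (fun x hx => Metric.ball x (δ ⟨x, hx⟩)) (fun x hx => Metric.ball_mem_nhds x (hδ _))
  refine ⟨t.card, fun ρ hρ => ?_⟩
  have hρ0 : (0 : ℝ) < ρ := by exact_mod_cast hρ
  set S := (bx N ρ).filter fun x => (x ≠ 0 ∧ ¬ R3 T x) ∧ ρ < 2 * ht x with hS
  set sc : (Fin N → ℤ) → (Fin N → ℝ) := fun x => (ρ : ℝ)⁻¹ • fun i => (x i : ℝ) with hsc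
  have hmem : ∀ x ∈ S, sc x ∈ KK T := by
    intro x hx
    rw [hS, mem_filter, mem_bx] at hx
    obtain ⟨h1, ⟨h2, h3⟩, h4⟩ := hx
    have hco : ∀ i, (x i).natAbs ≤ ht x := fun i =>
      Finset.le_sup (f := fun i => (x i).natAbs) (mem_univ i)
    refine ⟨?_, ?_, Vn_smul (Vn_int h3) _⟩
    · obtain ⟨i, -, hi⟩ := Finset.exists_mem_eq_sup (univ : Finset (Fin N))
        ⟨⟨0, by omega⟩, mem_univ _⟩ (fun i => (x i).natAbs)
      have h5 := norm_le_pi_norm (sc x) i
      refine le_trans ?_ h5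
      have h6 : ‖sc x i‖ = (ρ : ℝ)⁻¹ * ((x i).natAbs : ℝ) := by
        simp only [hsc, Pi.smul_apply, smul_eq_mul, norm_mul, norm_inv, Real.norm_natCast]
        rw [Nat.cast_natAbs, Int.cast_abs]
        rfl
      rw [h6, ← hi]
      have h7 : (ρ : ℝ) < 2 * (ht x : ℝ) := by exact_mod_cast h4
      change 1 / 2 ≤ (ρ : ℝ)⁻¹ * (ht x : ℝ)
      rw [inv_mul_eq_div, div_le_div_iff₀ (by norm_num) hρ0]
      linarith
    · rw [pi_norm_le_iff_of_nonneg zero_le_one]
      intro i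
      have h6 : ‖sc x i‖ = (ρ : ℝ)⁻¹ * ((x i).natAbs : ℝ) := by
        simp only [hsc, Pi.smul_apply, smul_eq_mul, norm_mul, norm_inv, Real.norm_natCast]
        rw [Nat.cast_natAbs, Int.cast_abs]
        rfl
      rw [h6, inv_mul_eq_div, div_le_one hρ0]
      exact_mod_cast (hco i).trans h1
  have hsub : S ⊆ t.biUnion fun x0 => S.filter fun x => sc x ∈ Metric.ball (x0 : Fin N → ℝ) (δ x0) := by
    intro x hx
    have h1 := ht' (hmem x hx)
    simp only [Set.mem_iUnion] at h1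
    obtain ⟨x0, hx0, h2⟩ := h1
    rw [mem_biUnion]
    exact ⟨x0, hx0, mem_filter.2 ⟨hx, h2⟩⟩
  refine (card_le_card hsub).trans (card_biUnion_le.trans ?_)
  rw [← smul_eq_mul, ← sum_const]
  refine sum_le_sum fun x0 _ => ?_
  -- the projection
  have hcard : Fintype.card {i : Fin N // i ∉ Set.range (J x0)} = N - 3 := by
    have h1 := Fintype.card_subtype_compl (fun i : Fin N => i ∈ Set.range (J x0))
    have h2 : Fintype.card {i : Fin N // i ∈ Set.range (J x0)} = 3 := by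
      have := Set.card_range_of_injective (hJ x0)
      rw [Fintype.card_fin] at this
      exact (Fintype.card_congr (Equiv.refl _)).trans this
    rw [h2, Fintype.card_fin] at h1
    exact h1
  have hpi : (Fintype.piFinset fun _ : {i : Fin N // i ∉ Set.range (J x0)} =>
      Icc (-(ρ : ℤ)) ρ).card = (2 * ρ + 1) ^ (N - 3) := by
    rw [Fintype.card_piFinset, prod_const, card_univ, hcard, Int.card_Icc]
    congr 1
    omega
  rw [← hpi]
  refine card_le_card_of_injOn (fun x i => x i.1) ?_ ?_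
  · intro x hx
    rw [mem_coe, mem_filter, hS, mem_filter, mem_bx] at hx
    rw [mem_coe, Fintype.mem_piFinset]
    intro i
    have h1 : (x i.1).natAbs ≤ ρ := (Finset.le_sup (f := fun i => (x i).natAbs)
      (mem_univ i.1)).trans hx.1.1
    rw [mem_Icc]
    change -(ρ : ℤ) ≤ x i.1 ∧ x i.1 ≤ ρ
    omega
  · intro x hx x' hx' heq
    rw [mem_coe, mem_filter] at hx hx'
    have h1 : sc x = sc x' := by
      refine hinj x0 (sc x) (sc x') (hmem x hx.1).2.2 (hmem x' hx'.1).2.2 hx.2 hx'.2 ?_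
      intro i hi
      have h2 := congrFun heq ⟨i, hi⟩
      simp only [hsc, Pi.smul_apply] at h2 ⊢
      rw [h2]
    funext i
    have h2 := congrFun h1 i
    simp only [hsc, Pi.smul_apply, smul_eq_mul] at h2
    have h3 : (x i : ℝ) = x' i := mul_left_cancel₀ (inv_ne_zero hρ0.ne') h2
    exact_mod_cast h3

end real

end ModV2

open ModV2

/-- module V2 -/
theorem v2 (hRk : StmtRkN) : StmtV2 := by
  classical
  intro N hN T hs
  obtain ⟨m, hm⟩ := half hRk hN hs
  refine ⟨2 * m * 3 ^ (N - 3), by positivity, ?_⟩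
  have key : ∀ ρ : ℕ, (((bx N ρ).filter fun x => x ≠ 0 ∧ ¬ R3 T x).card : ℝ) ≤
      2 * m * (3 ^ (N - 3) * (ρ : ℝ) ^ (N - 3)) := by
    intro ρ
    induction ρ using Nat.strong_induction_on with
    | _ ρ ih =>
    rcases Nat.eq_zero_or_pos ρ with rfl | hρ
    · have h1 : ((bx N 0).filter fun x => x ≠ 0 ∧ ¬ R3 T x) = ∅ := by
        rw [eq_empty_iff_forall_notMem]
        intro x hx
        rw [mem_filter, mem_bx] at hx
        apply hx.2.1
        funext i
        have h2 : (x i).natAbs ≤ 0 := (Finset.le_sup (f := fun i => (x i).natAbs)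
          (mem_univ i)).trans hx.1
        simpa using h2
      rw [h1, card_empty, Nat.cast_zero]
      positivity
    · have h1 : ((bx N ρ).filter fun x => x ≠ 0 ∧ ¬ R3 T x) ⊆
          ((bx N (ρ / 2)).filter fun x => x ≠ 0 ∧ ¬ R3 T x) ∪
          ((bx N ρ).filter fun x => (x ≠ 0 ∧ ¬ R3 T x) ∧ ρ < 2 * ht x) := by
        intro x hx
        rw [mem_filter, mem_bx] at hx
        rw [mem_union, mem_filter, mem_filter, mem_bx, mem_bx]
        by_cases h : ρ < 2 * ht x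
        · exact Or.inr ⟨hx.1, hx.2, h⟩
        · exact Or.inl ⟨by omega, hx.2⟩
      have h2 := (card_le_card h1).trans (card_union_le _ _)
      have h3 := ih (ρ / 2) (by omega)
      have h4 := hm ρ hρ
      have h5 : (((ρ / 2 : ℕ) : ℝ)) ^ (N - 3) ≤ (ρ : ℝ) ^ (N - 3) / 2 := by
        have h6 : ((ρ / 2 : ℕ) : ℝ) ≤ (ρ : ℝ) / 2 := Nat.cast_div_le
        have h7 : (((ρ / 2 : ℕ) : ℝ)) ^ (N - 3) ≤ ((ρ : ℝ) / 2) ^ (N - 3) :=
          pow_le_pow_left₀ (by positivity) h6 _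
        refine h7.trans ?_
        rw [div_pow]
        apply div_le_div_of_nonneg_left (by positivity) (by norm_num)
        have : (2 : ℝ) ^ 1 ≤ 2 ^ (N - 3) := pow_le_pow_right₀ (by norm_num) (by omega)
        simpa using this
      have h6 : ((2 * ρ + 1 : ℕ) : ℝ) ^ (N - 3) ≤ 3 ^ (N - 3) * (ρ : ℝ) ^ (N - 3) := by
        rw [← mul_pow]
        apply pow_le_pow_left₀ (by positivity)
        have : (1 : ℝ) ≤ ρ := by exact_mod_cast hρ
        push_cast
        linarith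
      have h7 : (((bx N ρ).filter fun x => x ≠ 0 ∧ ¬ R3 T x).card : ℝ) ≤
          (((bx N (ρ / 2)).filter fun x => x ≠ 0 ∧ ¬ R3 T x).card : ℝ) +
          (((bx N ρ).filter fun x => (x ≠ 0 ∧ ¬ R3 T x) ∧ ρ < 2 * ht x).card : ℝ) := by
        exact_mod_cast h2
      have h8 : (((bx N ρ).filter fun x => (x ≠ 0 ∧ ¬ R3 T x) ∧ ρ < 2 * ht x).card : ℝ) ≤
          m * ((2 * ρ + 1 : ℕ) : ℝ) ^ (N - 3) := by exact_mod_cast h4
      have h9 : (2 * m * (3 ^ (N - 3) * ((ρ / 2 : ℕ) : ℝ) ^ (N - 3)) : ℝ) ≤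
          2 * m * (3 ^ (N - 3) * ((ρ : ℝ) ^ (N - 3) / 2)) := by gcongr
      have h10 : (m : ℝ) * ((2 * ρ + 1 : ℕ) : ℝ) ^ (N - 3) ≤
          m * (3 ^ (N - 3) * (ρ : ℝ) ^ (N - 3)) := by gcongr
      have h11 : (2 * m * (3 ^ (N - 3) * ((ρ : ℝ) ^ (N - 3) / 2)) : ℝ) +
          m * (3 ^ (N - 3) * (ρ : ℝ) ^ (N - 3)) = 2 * m * (3 ^ (N - 3) * (ρ : ℝ) ^ (N - 3)) := by
        ring
      linarith
  intro ρ _
  refine (key ρ).trans (le_of_eq ?_)
  ring

end Pool.Agent.T6.H97.TB
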